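import Mathlib

/-!
# Ranks of abelian groups with operators of order three
-/

set_option autoImplicit false

namespace Q283.NR

open Module Cardinal

/-- the rank, a cardinal number -/
noncomputable abbrev rk (G : Type) [AddCommGroup G] : Cardinal := Module.rank ℤ G

section
variable {G H : Type} [AddCommGroup G] [AddCommGroup H]

theorem rk_le (f : G →+ H) (hf : ∀ x, f x = 0 → ∃ n : ℤ, n ≠ 0 ∧ n • x = 0) : rk G ≤ rk H := by
  have h1 := LinearMap.rank_range_add_rank_ker f.toIntLinearMap
  have h2 : Module.rank ℤ (LinearMap.ker f.toIntLinearMap) = 0 := by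
    rw [rank_eq_zero_iff]
    rintro ⟨x, hx⟩
    obtain ⟨n, hn, h⟩ := hf x hx
    exact ⟨n, hn, Subtype.ext h⟩
  rw [h2, add_zero] at h1
  unfold rk
  rw [← h1]
  exact Submodule.rank_le _

theorem rk_le_inj (f : G →+ H) (hf : Function.Injective f) : rk G ≤ rk H :=
  rk_le f fun x hx => ⟨1, one_ne_zero, by rw [one_smul]; exact hf (hx.trans (map_zero f).symm)⟩

theorem rk_eq (e : G ≃+ H) : rk G = rk H :=
  le_antisymm (rk_le_inj e.toAddMonoidHom e.injective) (rk_le_inj e.symm.toAddMonoidHom e.symm.injective)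

theorem rk_prod : rk (G × H) = rk G + rk H := by
  have h1 := LinearMap.rank_range_add_rank_ker (LinearMap.fst ℤ G H)
  have h2 : LinearMap.range (LinearMap.fst ℤ G H) = ⊤ :=
    LinearMap.range_eq_top.2 LinearMap.fst_surjective
  rw [h2, rank_top, LinearMap.ker_fst] at h1
  rw [← (LinearEquiv.ofInjective (LinearMap.inr ℤ G H) LinearMap.inr_injective).rank_eq] at h1
  exact h1.symm

end

theorem rk_mono {M : Type} [AddCommGroup M] {X Y : AddSubgroup M} (h : X ≤ Y) : rk X ≤ rk Y :=
  rk_le_inj (AddSubgroup.inclusion h) (AddSubgroup.inclusion_injective h)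

section
variable {M : Type} [AddCommGroup M]

theorem A3 {A : M →+ M} (hA : ∀ P, A (A P) = -P - A P) (P : M) : A (A (A P)) = P := by
  rw [hA, hA]
  abel

/-- three eigenspaces of an operator of order three -/
theorem rk_three (X X0 X1 X2 : AddSubgroup M) (A s : M →+ M)
    (hA : ∀ P, A (A P) = -P - A P) (hAX : ∀ P ∈ X, A P ∈ X) (hsX : ∀ P ∈ X, s P ∈ X)
    (hs : ∀ P ∈ X, s (s (s P)) = P) (hc : ∀ P, s (A P) = A (s P))
    (h0 : ∀ P, P ∈ X0 ↔ P ∈ X ∧ s P = P) (h1 : ∀ P, P ∈ X1 ↔ P ∈ X ∧ s P = A P)
    (h2 : ∀ P, P ∈ X2 ↔ P ∈ X ∧ s P = A (A P)) : rk X = rk X0 + rk X1 + rk X2 := by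
  have hA3 := A3 hA
  refine le_antisymm ?_ ?_
  · have e0 : ∀ P ∈ X, P + s P + s (s P) ∈ X0 := fun P hP => by
      rw [h0]
      refine ⟨add_mem (add_mem hP (hsX P hP)) (hsX _ (hsX P hP)), ?_⟩
      rw [map_add, map_add, hs P hP]
      abel
    have e1 : ∀ P ∈ X, P + A (A (s P)) + A (s (s P)) ∈ X1 := fun P hP => by
      rw [h1]
      refine ⟨add_mem (add_mem hP (hAX _ (hAX _ (hsX P hP)))) (hAX _ (hsX _ (hsX P hP))), ?_⟩
      rw [map_add, map_add, map_add, map_add, hc, hc, hc, hs P hP, hA3]
      abel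
    have e2 : ∀ P ∈ X, P + A (s P) + A (A (s (s P))) ∈ X2 := fun P hP => by
      rw [h2]
      refine ⟨add_mem (add_mem hP (hAX _ (hsX P hP))) (hAX _ (hAX _ (hsX _ (hsX P hP)))), ?_⟩
      rw [map_add, map_add, map_add, map_add, map_add, map_add, hc, hc, hc, hs P hP, hA3, hA3]
      abel
    let f0 : X →+ X0 :=
      { toFun := fun P => ⟨P + s P + s (s P), e0 P P.2⟩
        map_zero' := by ext; simp
        map_add' := fun P Q => by
          apply Subtype.ext
          show (P + Q : M) + s (P + Q) + s (s (P + Q)) = (P + s P + s (s P)) + (Q + s Q + s (s Q))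
          simp only [map_add]
          abel }
    let f1 : X →+ X1 :=
      { toFun := fun P => ⟨P + A (A (s P)) + A (s (s P)), e1 P P.2⟩
        map_zero' := by ext; simp
        map_add' := fun P Q => by
          apply Subtype.ext
          show (P + Q : M) + A (A (s (P + Q))) + A (s (s (P + Q))) =
            (P + A (A (s P)) + A (s (s P))) + (Q + A (A (s Q)) + A (s (s Q)))
          simp only [map_add]
          abel }
    let f2 : X →+ X2 :=
      { toFun := fun P => ⟨P + A (s P) + A (A (s (s P))), e2 P P.2⟩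
        map_zero' := by ext; simp
        map_add' := fun P Q => by
          apply Subtype.ext
          show (P + Q : M) + A (s (P + Q)) + A (A (s (s (P + Q)))) =
            (P + A (s P) + A (A (s (s P)))) + (Q + A (s Q) + A (A (s (s Q))))
          simp only [map_add]
          abel }
    refine (rk_le ((f0.prod f1).prod f2) ?_).trans_eq ?_
    · intro P hP
      have g0 : (P : M) + s P + s (s P) = 0 :=
        congrArg (fun x : X0 => (x : M)) (congrArg (fun x : (X0 × X1) × X2 => x.1.1) hP)
      have g1 : (P : M) + A (A (s P)) + A (s (s P)) = 0 :=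
        congrArg (fun x : X1 => (x : M)) (congrArg (fun x : (X0 × X1) × X2 => x.1.2) hP)
      have g2 : (P : M) + A (s P) + A (A (s (s P))) = 0 :=
        congrArg (fun x : X2 => (x : M)) (congrArg (fun x : (X0 × X1) × X2 => x.2) hP)
      refine ⟨3, by norm_num, Subtype.ext ?_⟩
      show (3 : ℤ) • (P : M) = 0
      have e : (3 : ℤ) • (P : M) = ((P : M) + s P + s (s P)) + ((P : M) + A (A (s P)) + A (s (s P))) +
          ((P : M) + A (s P) + A (A (s (s P)))) := by
        rw [hA, hA]
        abel
      rw [e, g0, g1, g2]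
      abel
    · rw [rk_prod, rk_prod]
  · rw [← rk_prod, ← rk_prod]
    let g : (X0 × X1) × X2 →+ X :=
      { toFun := fun P => ⟨(P.1.1 : M) + P.1.2 + P.2, add_mem (add_mem ((h0 _).1 P.1.1.2).1
          ((h1 _).1 P.1.2.2).1) ((h2 _).1 P.2.2).1⟩
        map_zero' := by ext; simp
        map_add' := fun P Q => by
          apply Subtype.ext
          show ((P.1.1 : M) + Q.1.1) + ((P.1.2 : M) + Q.1.2) + ((P.2 : M) + Q.2) =
            ((P.1.1 : M) + P.1.2 + P.2) + (Q.1.1 + Q.1.2 + Q.2)
          abel }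
    refine rk_le g ?_
    rintro ⟨⟨P, Q⟩, R⟩ hP
    have k0 : (P : M) + Q + R = 0 := congrArg (fun x : X => (x : M)) hP
    have sP := ((h0 _).1 P.2).2
    have sQ := ((h1 _).1 Q.2).2
    have sR := ((h2 _).1 R.2).2
    have k1 : (P : M) + A Q + A (A R) = 0 := by
      have h3 := congrArg s k0
      rw [map_add, map_add, map_zero, sP, sQ, sR] at h3
      exact h3
    have k2 : (P : M) + A (A Q) + A R = 0 := by
      have h3 := congrArg s k1
      rw [map_add, map_add, map_zero, sP, hc, sQ, hc, hc, sR, hA3] at h3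
      exact h3
    have z0 : (3 : ℤ) • (P : M) = 0 := by
      have e : (3 : ℤ) • (P : M) = ((P : M) + Q + R) + ((P : M) + A Q + A (A R)) +
          ((P : M) + A (A Q) + A R) := by
        rw [hA, hA]
        abel
      rw [e, k0, k1, k2]
      abel
    have z1 : (3 : ℤ) • (Q : M) = 0 := by
      have e : (3 : ℤ) • (Q : M) = ((P : M) + Q + R) + A (A ((P : M) + A Q + A (A R))) +
          A ((P : M) + A (A Q) + A R) := by
        simp only [map_add]
        rw [hA3, hA3, hA P, hA R]
        abel
      rw [e, k0, k1, k2, map_zero, map_zero]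
      abel
    have z2 : (3 : ℤ) • (R : M) = 0 := by
      have e : (3 : ℤ) • (R : M) = ((P : M) + Q + R) + A ((P : M) + A Q + A (A R)) +
          A (A ((P : M) + A (A Q) + A R)) := by
        simp only [map_add]
        rw [hA3, hA3, hA P, hA Q]
        abel
      rw [e, k0, k1, k2, map_zero, map_zero]
      abel
    refine ⟨3, by norm_num, ?_⟩
    refine Prod.ext (Prod.ext (Subtype.ext z0) (Subtype.ext z1)) (Subtype.ext z2)

/-- a semilinear involution -/
theorem rk_two (X Y : AddSubgroup M) (A c : M →+ M)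
    (hA : ∀ P, A (A P) = -P - A P) (hAX : ∀ P ∈ X, A P ∈ X) (hcX : ∀ P ∈ X, c P ∈ X)
    (hcc : ∀ P ∈ X, c (c P) = P) (hcA : ∀ P, c (A P) = A (A (c P)))
    (hY : ∀ P, P ∈ Y ↔ P ∈ X ∧ c P = P) : rk X = rk Y + rk Y := by
  have hA3 := A3 hA
  have tor : ∀ P : M, A P = A (A P) → (3 : ℤ) • P = 0 := by
    intro P h
    have h1 : A (A P) = P := by
      have := congrArg A h
      rw [hA3] at this
      exact this
    have h2 : A P = P := h.trans h1
    have h3 := hA P
    rw [h1, h2] at h3
    have e : (3 : ℤ) • P = P - (-P - P) := by abel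
    rw [e, ← h3, sub_self]
  refine le_antisymm ?_ ?_
  · have e0 : ∀ P ∈ X, P + c P ∈ Y := fun P hP => by
      rw [hY]
      refine ⟨add_mem hP (hcX P hP), ?_⟩
      rw [map_add, hcc P hP]
      abel
    let f0 : X →+ Y :=
      { toFun := fun P => ⟨P + c P, e0 P P.2⟩
        map_zero' := by ext; simp
        map_add' := fun P Q => by
          apply Subtype.ext
          show (P + Q : M) + c (P + Q) = (P + c P) + (Q + c Q)
          simp only [map_add]
          abel }
    let f1 : X →+ Y :=
      { toFun := fun P => ⟨A P + c (A P), e0 _ (hAX P P.2)⟩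
        map_zero' := by ext; simp
        map_add' := fun P Q => by
          apply Subtype.ext
          show A (P + Q : M) + c (A (P + Q)) = (A P + c (A P)) + (A Q + c (A Q))
          simp only [map_add]
          abel }
    refine (rk_le (f0.prod f1) ?_).trans_eq rk_prod
    intro P hP
    have g0 : (P : M) + c P = 0 :=
      congrArg (fun x : Y => (x : M)) (congrArg (fun x : Y × Y => x.1) hP)
    have g1 : A (P : M) + c (A P) = 0 :=
      congrArg (fun x : Y => (x : M)) (congrArg (fun x : Y × Y => x.2) hP)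
    refine ⟨3, by norm_num, Subtype.ext (tor P ?_)⟩
    have h2 : c (P : M) = -P := by
      rw [eq_neg_iff_add_eq_zero, add_comm]
      exact g0
    rw [hcA, h2, map_neg, map_neg] at g1
    rw [← sub_eq_add_neg, sub_eq_zero] at g1
    exact g1
  · rw [← rk_prod]
    let g : Y × Y →+ X :=
      { toFun := fun P => ⟨(P.1 : M) + A P.2, add_mem ((hY _).1 P.1.2).1
          (hAX _ ((hY _).1 P.2.2).1)⟩
        map_zero' := by ext; simp
        map_add' := fun P Q => by
          apply Subtype.ext
          show ((P.1 : M) + Q.1) + A ((P.2 : M) + Q.2) = ((P.1 : M) + A P.2) + (Q.1 + A Q.2)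
          rw [map_add]
          abel }
    refine rk_le g ?_
    rintro ⟨P, Q⟩ hP
    have k0 : (P : M) + A Q = 0 := congrArg (fun x : X => (x : M)) hP
    have cP := ((hY _).1 P.2).2
    have cQ := ((hY _).1 Q.2).2
    have k1 : (P : M) + A (A Q) = 0 := by
      have h3 := congrArg c k0
      rw [map_add, map_zero, cP, hcA, cQ] at h3
      exact h3
    have z1 : (3 : ℤ) • (Q : M) = 0 := tor Q (add_left_cancel (k0.trans k1.symm))
    have z0 : (3 : ℤ) • (P : M) = 0 := by
      have e : (P : M) = -A Q := eq_neg_of_add_eq_zero_left k0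
      rw [e, smul_neg, ← map_zsmul, z1, map_zero, neg_zero]
    exact ⟨3, by norm_num, Prod.ext (Subtype.ext z0) (Subtype.ext z1)⟩

end

end Q283.NR
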