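import Pool.Agent.Q283.NR.R9

/-! The exact patterns -/

set_option autoImplicit false
set_option linter.unusedSectionVars false
set_option linter.unusedVariables false

open scoped Classical
open Finset Filter

namespace Q283.NR

open Q283.Q3B (rr)
open Q283.ND (Dc cf Dk mem_Dk)
open Q283.NK (fo fo_ne DkK)
open Q283.NJ (sp sp_ac sp_sqf PL)
open Pool.Agent.Y703.CT (Cls Base)
open Pool.Agent.Y703.CX (c3)
open Q155.NL (Alm)

/-- **From the intersections to the patterns.** -/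
theorem excl {E : Type} (I : Finset E) {M : ℕ} (P : Fin M → E → Prop) {p δ : ℝ}
    (h : ∀ B : Finset (Fin M), |((I.filter fun e => ∀ j ∈ B, P j e).card : ℝ) -
      p ^ B.card * I.card| ≤ δ * I.card) (A : Finset (Fin M)) :
    |((I.filter fun e => ∀ j, (P j e ↔ j ∈ A)).card : ℝ) -
      (p ^ A.card * (1 - p) ^ (M - A.card)) * I.card| ≤ 2 ^ M * (δ * I.card) := by
  have hδ : 0 ≤ δ * I.card := (abs_nonneg _).trans (h ∅)
  obtain ⟨x, hx⟩ : ∃ x : Fin M → E → ℝ, x = fun j e => if P j e then 1 else 0 := ⟨_, rfl⟩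
  have hprod : ∀ (B : Finset (Fin M)) (e : E), ∏ j ∈ B, x j e = if ∀ j ∈ B, P j e then 1 else 0 := by
    intro B e
    by_cases hB : ∀ j ∈ B, P j e
    · rw [if_pos hB]
      refine prod_eq_one fun j hj => ?_
      rw [hx]
      exact if_pos (hB j hj)
    · rw [if_neg hB]
      push Not at hB
      obtain ⟨j, hj, hPj⟩ := hB
      refine prod_eq_zero hj ?_
      rw [hx]
      exact if_neg hPj
  have hcard : ∀ B : Finset (Fin M), ((I.filter fun e => ∀ j ∈ B, P j e).card : ℝ) =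
      ∑ e ∈ I, ∏ j ∈ B, x j e := by
    intro B
    rw [card_filter]
    push_cast
    exact sum_congr rfl fun e _ => (hprod B e).symm
  have hex : ((I.filter fun e => ∀ j, (P j e ↔ j ∈ A)).card : ℝ) =
      ∑ e ∈ I, (∏ j ∈ A, x j e) * ∏ j ∈ Aᶜ, (-x j e + 1) := by
    rw [card_filter]
    push_cast
    refine sum_congr rfl fun e _ => ?_
    by_cases hA : ∀ j, (P j e ↔ j ∈ A)
    · rw [if_pos hA, prod_eq_one fun j hj => ?_, prod_eq_one fun j hj => ?_, one_mul]
      · rw [hx]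
        have h1 : ¬ P j e := fun h' => (mem_compl.1 hj) ((hA j).1 h')
        show -(if P j e then (1 : ℝ) else 0) + 1 = 1
        rw [if_neg h1]
        norm_num
      · rw [hx]
        exact if_pos ((hA j).2 hj)
    · rw [if_neg hA]
      push Not at hA
      obtain ⟨j, hj⟩ := hA
      symm
      rw [mul_eq_zero]
      rcases hj with ⟨h1, h2⟩ | ⟨h1, h2⟩
      · right
        refine prod_eq_zero (mem_compl.2 h2) ?_
        rw [hx]
        show -(if P j e then (1 : ℝ) else 0) + 1 = 0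
        rw [if_pos h1]
        norm_num
      · left
        refine prod_eq_zero h2 ?_
        rw [hx]
        exact if_neg h1
  have hdisj : ∀ t ∈ (Aᶜ).powerset, Disjoint A t := fun t ht =>
    disjoint_left.2 fun j hj hjt => (mem_compl.1 (mem_powerset.1 ht hjt)) hj
  have h1 : ((I.filter fun e => ∀ j, (P j e ↔ j ∈ A)).card : ℝ) =
      ∑ t ∈ (Aᶜ).powerset, (-1 : ℝ) ^ t.card * ((I.filter fun e => ∀ j ∈ A ∪ t, P j e).card : ℝ) := by
    rw [hex]
    have h2 : ∀ e ∈ I, (∏ j ∈ A, x j e) * ∏ j ∈ Aᶜ, (-x j e + 1) =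
        ∑ t ∈ (Aᶜ).powerset, (-1 : ℝ) ^ t.card * ∏ j ∈ A ∪ t, x j e := by
      intro e _
      rw [prod_add, mul_sum]
      refine sum_congr rfl fun t ht => ?_
      rw [prod_const_one, mul_one, prod_neg, prod_union (hdisj t ht)]
      ring
    rw [sum_congr rfl h2, sum_comm]
    refine sum_congr rfl fun t _ => ?_
    rw [hcard, mul_sum]
  have h2 : (p ^ A.card * (1 - p) ^ (M - A.card)) * (I.card : ℝ) =
      ∑ t ∈ (Aᶜ).powerset, (-1 : ℝ) ^ t.card * (p ^ (A ∪ t).card * I.card) := by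
    have h3 : (1 - p) ^ (M - A.card) = ∏ j ∈ Aᶜ, (-p + 1) := by
      rw [prod_const, card_compl, Fintype.card_fin]
      congr 1
      ring
    rw [h3, prod_add, mul_sum, sum_mul]
    refine sum_congr rfl fun t ht => ?_
    rw [prod_const_one, mul_one, prod_const, card_union_of_disjoint (hdisj t ht), pow_add, neg_pow]
    ring
  rw [h1, h2, ← sum_sub_distrib]
  refine (abs_sum_le_sum_abs _ _).trans ?_
  have h3 : ∀ t ∈ (Aᶜ).powerset, |(-1 : ℝ) ^ t.card *
      ((I.filter fun e => ∀ j ∈ A ∪ t, P j e).card : ℝ) -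
      (-1 : ℝ) ^ t.card * (p ^ (A ∪ t).card * I.card)| ≤ δ * I.card := by
    intro t _
    rw [← mul_sub, abs_mul, abs_pow, abs_neg, abs_one, one_pow, one_mul]
    exact h (A ∪ t)
  refine (sum_le_sum h3).trans ?_
  rw [sum_const, nsmul_eq_mul, card_powerset]
  push_cast
  refine mul_le_mul_of_nonneg_right ?_ hδ
  refine pow_le_pow_right₀ (by norm_num) ?_
  rw [card_compl, Fintype.card_fin]
  exact Nat.sub_le _ _

/-- all the twists of `N` for the new characters are trivial -/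
def NN0 (n N : ℕ) (d : Fin n → ℕ) : Prop :=
  ∀ e : Fin n → ZMod 3, e ≠ 0 → rr (cf (N * fo e d)) = 0

/-- **The law of the patterns.** -/
theorem mainS : ∃ S : ℕ → Prop, Alm (fun _ => True) S ∧ Alm Dc S ∧
    (∀ (M n : ℕ) (N : Fin M → ℕ), (∀ j, Cls (N j)) →
      (∀ j l, j ≠ l → N j ≠ N l ∧ ¬ ∃ b : ℕ, N j * N l = b ^ 3) →
      ∀ ε : ℝ, 0 < ε → ∀ᶠ D in atTop, S D →
        (1 - ε) * (DkK (fun _ : Fin n => 1) (sp D)).card ≤ (Ik n (sp D)).card ∧
        (Ik n (sp D)).Nonempty ∧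
        ∀ A : Finset (Fin M), |(((Ik n (sp D)).filter fun d => ∀ j, (NN0 n (N j) d ↔ j ∈ A)).card : ℝ) -
          ((c3 ^ (3 ^ n - 1)) ^ A.card * (1 - c3 ^ (3 ^ n - 1)) ^ (M - A.card)) *
            (Ik n (sp D)).card| ≤ ε * (Ik n (sp D)).card) ∧
    (∀ (n N : ℕ), Cls N → ∀ ε : ℝ, 0 < ε → ∀ᶠ D in atTop, S D →
        (((Ik n (sp D)).filter fun d => 3 ^ n - 1 ≤ 2 * Gs N d).card : ℝ) ≤
          ((0.998 : ℝ) ^ (3 ^ n - 1) + ε) * (Ik n (sp D)).card ∧
        ∑ d ∈ Ik n (sp D), (Gs N d : ℝ) ≤ (0.46 * (3 ^ n - 1 : ℕ)) * (Ik n (sp D)).card) ∧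
    (∀ N : ℕ, Cls N → ∀ ε : ℝ, 0 < ε → ∀ᶠ D in atTop, S D → PL N ε (sp D)) := by
  obtain ⟨S, hS1, hS2, h1, h2, h3⟩ := mainR
  refine ⟨S, hS1, hS2, fun M n N hC hN ε hε => ?_, h2, h3⟩
  have hall : ∀ B : Finset (Fin M), ∀ᶠ D in atTop, S D →
      |(((Ik n (sp D)).filter fun d => ∀ j ∈ B, NN0 n (N j) d).card : ℝ) -
        (c3 ^ (3 ^ n - 1)) ^ B.card * (Ik n (sp D)).card| ≤ ε / 2 ^ M * (Ik n (sp D)).card := by
    intro B
    have h4 := h1 B.card n (fun i => N (B.orderEmbOfFin rfl i)) (fun i => hC _)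
      (fun i l hil => hN _ _ fun h => hil ((B.orderEmbOfFin rfl).injective h))
      (ε / 2 ^ M) (by positivity)
    filter_upwards [h4] with D h5 hS
    have h6 := (h5 hS).2.2
    rw [mul_comm B.card, pow_mul] at h6
    refine abs_swap (Pool.Agent.XLK.fcc fun d _ => ?_) h6
    constructor
    · intro h i e he
      exact h _ (Finset.orderEmbOfFin_mem B rfl i) e he
    · intro h j hj e he
      obtain ⟨i, hi⟩ : ∃ i, B.orderEmbOfFin rfl i = j := by
        have h7 := Finset.range_orderEmbOfFin B rfl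
        have h8 : j ∈ Set.range (B.orderEmbOfFin rfl) := by
          rw [h7]
          exact hj
        exact h8
      rw [← hi]
      exact h i e he
  filter_upwards [h1 M n N hC hN ε hε, eventually_all.2 hall] with D h4 h5 hS
  obtain ⟨g1, g2, -⟩ := h4 hS
  refine ⟨g1, g2, fun A => ?_⟩
  have h6 := excl (Ik n (sp D)) (fun j d => NN0 n (N j) d) (fun B => h5 B hS) A
  have h7 : (2 : ℝ) ^ M * (ε / 2 ^ M * (Ik n (sp D)).card) = ε * (Ik n (sp D)).card := by
    field_simp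
  rw [h7] at h6
  exact h6

end Q283.NR
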