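import Pool.Agent.Q283.NR.R1
import Pool.Agent.Q283.MC.Ind

/-!
# Ranks over the fields generated by cube roots: the steps
-/

set_option autoImplicit false
set_option linter.unusedSectionVars false
set_option linter.unusedVariables false
set_option linter.style.haveILetI false

open scoped Classical Pointwise

namespace Q283.NR

open WeierstrassCurve
open Pool.Agent.Y703.CT
open Pool.Agent.Y715.T.Gi Pool.Agent.Y715.T.Nr Pool.Agent.Y715.T.Df Pool.Agent.Y715.T.Ell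
open Pool.Agent.Y692.CT (PD ac Ph Ph_some Ph_nons ac_some ac_Ph Ph_tw pt_ext ac_mul ac_one it_some)
open Pool.Agent.Y155.CT (jj_add jj_jj jj_im pm_jj jh jh_apply im3 jj_zero)
open Q283.MC

variable {i₀ : QB} (hi : i₀ ^ 2 + i₀ + 1 = 0)

/-- the eigenspace -/
theorem mem_eig {H : Subgroup Gam} (hH : ∀ σ ∈ H, σ i₀ = i₀) {θ t : QB} (hθ0 : θ ≠ 0)
    (ht0 : t ≠ 0) {n m : ℕ} (hθ : θ ^ 3 = (n : QB)) (ht : t ^ 3 = (m : QB)) {s : Gam} (hsH : s ∈ H)
    (hst : s t = i₀ ^ (1 : ZMod 3).val * t) {b : ZMod 3} (hb : s θ = i₀ ^ b.val * θ) (i : ℕ)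
    (P : Pt QB) : P ∈ SS hi H (θ * t ^ i) ↔ P ∈ SS hi (Hs H t) θ ∧ pg s P = jj hi (b + i) P := by
  have hsi := hH s hsH
  have hst' : s t = i₀ * t := by
    rw [hst]
    have : (1 : ZMod 3).val = 1 := by decide
    rw [this, pow_one]
  have hpi : ∀ (j : ZMod 3) (i : ℕ), (i₀ ^ j.val) ^ i = i₀ ^ ((i : ZMod 3) * j).val := by
    intro j i
    rw [mul_comm, ip_mul hi, ZMod.val_natCast]
    refine pow_eq_pow_mod i ?_
    rw [← pow_mul, mul_comm, pow_mul, ip3 hi, one_pow]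
  constructor
  · intro hP
    refine ⟨fun σ hσ c hc => ?_, ?_⟩
    · refine hP σ hσ.1 c ?_
      rw [map_mul, map_pow, hσ.2, hc]
      ring
    · refine hP s hsH (b + i) ?_
      rw [map_mul, map_pow, hb, hst, ip_val hi, mul_pow, hpi, mul_one]
      ring
  · rintro ⟨hP, hsP⟩ σ hσ c hc
    have hσi := hH σ hσ
    obtain ⟨j, hj⟩ := ex_c hi (σ := σ) m ht
    obtain ⟨e, he⟩ := ex_c hi (σ := σ) n hθ
    have hpow : ∀ r : ℕ, pg (s ^ r) P = jj hi ((r : ZMod 3) * (b + i)) P := by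
      intro r
      induction r with
      | zero =>
        rw [pow_zero, Nat.cast_zero, zero_mul]
        exact pm_id P
      | succ r ih =>
        rw [pow_succ', pg_mul, ih, pg_jj hi hsi, hsP, jj_jj]
        congr 1
        push_cast
        ring
    have hce : c = e + i * j := by
      apply ip_inj hi (θ := θ * t ^ i) (mul_ne_zero hθ0 (pow_ne_zero _ ht0))
      rw [← hc, map_mul, map_pow, he, hj, ip_val hi, mul_pow, hpi]
      ring
    have hr : s ^ j.val ∈ H := pow_mem hsH _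
    have hri : (s ^ j.val) i₀ = i₀ := hH _ hr
    have hrt : (s ^ j.val) t = i₀ ^ j.val * t := by
      rw [pow_c hi hsi hst, ZMod.natCast_zmod_val, mul_one]
    have hrθ : (s ^ j.val) θ = i₀ ^ (j * b).val * θ := by
      rw [pow_c hi hsi hb, ZMod.natCast_zmod_val]
    have hinvH : (s ^ j.val)⁻¹ ∈ H := inv_mem hr
    have hmem : (s ^ j.val)⁻¹ * σ ∈ Hs H t := by
      refine ⟨mul_mem hinvH hσ, ?_⟩
      rw [AlgEquiv.mul_apply, hj]
      exact inv_app hrt
    have hact := hP _ hmem (e + -(j * b)) (mul_c hi (hH _ hinvH) (inv_c hi hri hrθ) he)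
    have hdec : σ = s ^ j.val * ((s ^ j.val)⁻¹ * σ) := by rw [mul_inv_cancel_left]
    rw [hdec, pg_mul, hact, pg_jj hi hri, hpow, jj_jj, ZMod.natCast_zmod_val, hce]
    congr 1
    ring

theorem jj_cancel (b c : ZMod 3) (P Q : Pt QB) : jj hi (-b) Q = jj hi c P ↔ Q = jj hi (b + c) P := by
  constructor
  · intro h
    have h4 := congrArg (jj hi b) h
    rw [jj_jj, jj_jj, add_neg_cancel] at h4
    rw [← h4]
    rfl
  · intro h
    rw [h, jj_jj]
    congr 1
    ring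

/-- **The step.** -/
theorem step_rk {H : Subgroup Gam} (hH : ∀ σ ∈ H, σ i₀ = i₀) {θ t : QB} (hθ0 : θ ≠ 0)
    (ht0 : t ≠ 0) {n m : ℕ} (hθ : θ ^ 3 = (n : QB)) (ht : t ^ 3 = (m : QB))
    (hs : ∃ s ∈ H, s t = i₀ ^ (1 : ZMod 3).val * t) :
    rk (SS hi (Hs H t) θ) =
      rk (SS hi H θ) + rk (SS hi H (θ * t)) + rk (SS hi H (θ * t ^ 2)) := by
  obtain ⟨s, hsH, hst⟩ := hs
  have hsi := hH s hsH
  obtain ⟨b, hb⟩ := ex_c hi (σ := s) n hθ
  have key := mem_eig hi hH hθ0 ht0 hθ ht hsH hst hb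
  refine rk_three (SS hi (Hs H t) θ) (SS hi H θ) (SS hi H (θ * t)) (SS hi H (θ * t ^ 2))
    (im (isE QB) hi) ((jh hi (-b)).comp (pg s)) (im_im (isE QB) hi) ?_ ?_ ?_ ?_ ?_ ?_ ?_
  · intro P hP σ hσ c hc
    have h3 : pg σ (im (isE QB) hi P) = im (isE QB) hi (pg σ P) :=
      pm_im σ.toAlgHom hi hi (hH σ hσ.1) P
    rw [h3, hP σ hσ c hc, jj_im]
  · intro P hP σ hσ c hc
    have hσi := hH σ hσ.1
    have hmem : s⁻¹ * (σ * s) ∈ Hs H t := by
      refine ⟨mul_mem (inv_mem hsH) (mul_mem hσ.1 hsH), ?_⟩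
      rw [AlgEquiv.mul_apply, AlgEquiv.mul_apply, hst, map_mul, map_pow, hσi, hσ.2]
      exact inv_app hst
    have hact := hP _ hmem (b + c + -b) (mul_c hi (hH _ (inv_mem hsH)) (inv_c hi hsi hb)
      (mul_c hi hσi hc hb))
    have e1 : b + c + -b = c := by ring
    rw [e1] at hact
    have e2 : pg s (pg (s⁻¹ * (σ * s)) P) = pg σ (pg s P) := by
      rw [← pg_mul, mul_inv_cancel_left, pg_mul]
    show pg σ (jj hi (-b) (pg s P)) = jj hi c (jj hi (-b) (pg s P))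
    rw [pg_jj hi hσi, ← e2, hact, pg_jj hi hsi, jj_jj, jj_jj, add_comm]
  · intro P hP
    have hmem : s ^ 3 ∈ Hs H t := by
      refine ⟨pow_mem hsH 3, ?_⟩
      rw [pow_c hi hsi hst]
      have : (((3 : ℕ) : ZMod 3) * 1).val = 0 := by decide
      rw [this, pow_zero, one_mul]
    have hact := hP _ hmem 0 (by
      rw [pow_c hi hsi hb]
      have : ((3 : ℕ) : ZMod 3) = 0 := by decide
      rw [this, zero_mul])
    show jj hi (-b) (pg s (jj hi (-b) (pg s (jj hi (-b) (pg s P))))) = P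
    rw [pg_jj hi hsi, pg_jj hi hsi, pg_jj hi hsi, jj_jj, jj_jj, ← pg_mul, ← pg_mul]
    have e1 : s * s * s = s ^ 3 := (pow_three' s).symm
    rw [e1, hact, jj_jj]
    have e2 : (-b + -b + -b + 0 : ZMod 3) = 0 := by
      have h3 : (3 : ZMod 3) = 0 := by decide
      linear_combination (-b) * h3
    rw [e2]
    rfl
  · intro P
    have h3 : pg s (im (isE QB) hi P) = im (isE QB) hi (pg s P) :=
      pm_im s.toAlgHom hi hi hsi P
    show jj hi (-b) (pg s (im (isE QB) hi P)) = im (isE QB) hi (jj hi (-b) (pg s P))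
    rw [h3, jj_im]
  · intro P
    have h1 := key 0 P
    rw [pow_zero, mul_one, Nat.cast_zero] at h1
    rw [h1]
    exact and_congr_right fun _ => (jj_cancel hi b 0 P (pg s P)).symm
  · intro P
    have h1 := key 1 P
    rw [pow_one, Nat.cast_one] at h1
    rw [h1]
    exact and_congr_right fun _ => (jj_cancel hi b 1 P (pg s P)).symm
  · intro P
    have h1 := key 2 P
    have h5 : ((2 : ℕ) : ZMod 3) = 2 := by decide
    rw [h5] at h1
    rw [h1]
    exact and_congr_right fun _ => (jj_cancel hi b 2 P (pg s P)).symm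

/-- **All the steps.** -/
theorem steps_rk {H : Subgroup Gam} (hH : ∀ σ ∈ H, σ i₀ = i₀) : ∀ (k : ℕ) (t : Fin k → QB)
    (m : Fin k → ℕ) (θ : QB) (n : ℕ), θ ≠ 0 → (∀ j, t j ≠ 0) → θ ^ 3 = (n : QB) →
    (∀ j, t j ^ 3 = (m j : QB)) →
    (∀ c : Fin k → ZMod 3, ∃ σ ∈ H, ∀ j, σ (t j) = i₀ ^ (c j).val * t j) →
    rk (SS hi (Hk H t) θ) = ∑ e : Fin k → ZMod 3, rk (SS hi H (θ * ∏ j, t j ^ (e j).val))
  | 0, t, m, θ, n, hθ0, ht0, hθ, ht, hf => by
    rw [Fintype.sum_unique, Finset.univ_eq_empty, Finset.prod_empty, mul_one]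
    have h1 : Hk H t = H := by
      ext σ
      rw [mem_Hk]
      exact ⟨fun h => h.1, fun h => ⟨h, fun j => j.elim0⟩⟩
    rw [h1]
  | k + 1, t, m, θ, n, hθ0, ht0, hθ, ht, hf => by
    have hsub : ∀ σ ∈ Hk H (Fin.tail t), σ i₀ = i₀ := fun σ hσ => hH σ hσ.1
    have e0 : (0 : ZMod 3).val = 0 := by decide
    have e1 : (1 : ZMod 3).val = 1 := by decide
    have e2 : (2 : ZMod 3).val = 2 := by decide
    have key : ∀ i : ZMod 3, rk (SS hi (Hk H (Fin.tail t)) (θ * t 0 ^ i.val)) =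
        ∑ e : Fin k → ZMod 3, rk (SS hi H (θ * t 0 ^ i.val * ∏ j, t j.succ ^ (e j).val)) := by
      intro i
      refine steps_rk hH k (Fin.tail t) (Fin.tail m) (θ * t 0 ^ i.val) (n * m 0 ^ i.val)
        (mul_ne_zero hθ0 (pow_ne_zero _ (ht0 0))) (fun j => ht0 j.succ) ?_
        (fun j => ht j.succ) fun c => ?_
      · rw [mul_pow, hθ, ← pow_mul, mul_comm i.val 3, pow_mul, ht]
        push_cast
        rfl
      · obtain ⟨σ, hσ, h⟩ := hf (Fin.cons 0 c)
        refine ⟨σ, hσ, fun j => ?_⟩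
        have h1 := h j.succ
        rw [Fin.cons_succ] at h1
        exact h1
    have hH2 : Hk H t = Hs (Hk H (Fin.tail t)) (t 0) := by
      ext σ
      rw [mem_Hk, mem_Hs, mem_Hk]
      constructor
      · rintro ⟨h1, h2⟩
        exact ⟨⟨h1, fun j => h2 j.succ⟩, h2 0⟩
      · rintro ⟨⟨h1, h2⟩, h3⟩
        exact ⟨h1, fun j => Fin.cases h3 (fun j => h2 j) j⟩
    have hs : ∃ s ∈ Hk H (Fin.tail t), s (t 0) = i₀ ^ (1 : ZMod 3).val * t 0 := by
      obtain ⟨σ, hσ, h⟩ := hf (Fin.cons 1 fun _ => 0)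
      refine ⟨σ, ⟨hσ, fun j => ?_⟩, ?_⟩
      · have h1 := h j.succ
        rw [Fin.cons_succ, e0, pow_zero, one_mul] at h1
        exact h1
      · have h1 := h 0
        rw [Fin.cons_zero] at h1
        exact h1
    have k0 := key 0
    have k1 := key 1
    have k2 := key 2
    rw [e0, pow_zero, mul_one] at k0
    rw [e1, pow_one] at k1
    rw [e2] at k2
    rw [hH2, step_rk hi hsub hθ0 (ht0 0) hθ (ht 0) hs, k0, k1, k2]
    have h4 : ∑ e : Fin (k + 1) → ZMod 3, rk (SS hi H (θ * ∏ j, t j ^ (e j).val)) =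
        ∑ i : ZMod 3, ∑ e : Fin k → ZMod 3,
          rk (SS hi H (θ * t 0 ^ i.val * ∏ j, t j.succ ^ (e j).val)) := by
      rw [← (Fin.consEquiv fun _ : Fin (k + 1) => ZMod 3).sum_comp, Fintype.sum_prod_type]
      refine Finset.sum_congr rfl fun i _ => Finset.sum_congr rfl fun e _ => ?_
      show rk (SS hi H (θ * ∏ j : Fin (k + 1), t j ^ ((Fin.cons i e : Fin (k + 1) → ZMod 3) j).val)) = _
      rw [Fin.prod_univ_succ, mul_assoc]
      rfl
    rw [h4]
    have h5 : ∀ g : ZMod 3 → Cardinal, ∑ i : ZMod 3, g i = g 0 + g 1 + g 2 := by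
      intro g
      exact Fin.sum_univ_three g
    rw [h5]
    beta_reduce
    rw [e0, e1, e2, pow_zero, mul_one, pow_one]

/-- the action of an element that moves the root of unity -/
theorem pg_im2 {c : Gam} (hc : c i₀ = -1 - i₀) (P : Pt QB) :
    pg c (im (isE QB) hi P) = im (isE QB) hi (im (isE QB) hi (pg c P)) := by
  rcases P with _ | ⟨x, y, h⟩
  · show pg c (im (isE QB) hi 0) = im (isE QB) hi (im (isE QB) hi (pg c 0))
    simp only [map_zero]
  · show pm c.toAlgHom _ = im (isE QB) hi (im (isE QB) hi (pm c.toAlgHom _))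
    rw [im_some, pm_some, pm_some, im_some, im_some, Affine.Point.some.injEq]
    refine ⟨?_, rfl⟩
    rw [map_mul]
    have h4 : c.toAlgHom i₀ = -1 - i₀ := hc
    rw [h4]
    linear_combination (-c.toAlgHom x) * hi

theorem pg_jj2 {c : Gam} (hc : c i₀ = -1 - i₀) (a : ZMod 3) (P : Pt QB) :
    pg c (jj hi a P) = jj hi (-a) (pg c P) := by
  have h1 : ∀ Q : Pt QB, pg c (im (isE QB) hi Q) = jj hi 2 (pg c Q) := fun Q => pg_im2 hi hc Q
  have h3 : ∀ a : ZMod 3, a = 0 ∨ a = 1 ∨ a = 2 := by decide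
  rcases h3 a with rfl | rfl | rfl
  · rw [neg_zero]
    rfl
  · have h4 : (-1 : ZMod 3) = 2 := by decide
    rw [h4]
    exact h1 P
  · have h4 : (-2 : ZMod 3) = 2 + 2 := by decide
    rw [h4, ← jj_jj]
    show pg c (im (isE QB) hi (im (isE QB) hi P)) = _
    rw [h1, h1]

/-- **The quadratic step.** -/
theorem quad_rk {H : Subgroup Gam} {c : Gam} (hcH : c ∈ H) (hc : c i₀ = -1 - i₀) {θ : QB}
    (hθ0 : θ ≠ 0) {n : ℕ} (hθ : θ ^ 3 = (n : QB)) :
    rk (SS hi (H ⊓ H0 i₀) θ) = rk (SS hi H θ) + rk (SS hi H θ) := by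
  obtain ⟨e, he⟩ := ex_c hi (σ := c) n hθ
  have hne : ∀ σ : Gam, σ i₀ = i₀ ∨ σ i₀ = -1 - i₀ := by
    intro σ
    have h1 : (σ i₀) ^ 2 + σ i₀ + 1 = 0 := by
      rw [← map_pow, ← map_add, ← map_one σ, ← map_add, hi, map_zero]
    have h2 : (σ i₀ - i₀) * (σ i₀ - (-1 - i₀)) = 0 := by linear_combination h1 - hi
    rcases mul_eq_zero.1 h2 with h3 | h3
    · exact Or.inl (sub_eq_zero.1 h3)
    · exact Or.inr (sub_eq_zero.1 h3)
  have hcc : (c * c) i₀ = i₀ := by
    rw [AlgEquiv.mul_apply, hc, map_sub, map_neg, map_one, hc]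
    ring
  have hci : c⁻¹ i₀ = -1 - i₀ := by
    apply inv_app
    rw [map_sub, map_neg, map_one, hc]
    ring
  have hp : ∀ a : ZMod 3, c (i₀ ^ a.val) = i₀ ^ (-a).val := by
    intro a
    have h5 : (-1 - i₀ : QB) = i₀ ^ (2 : ZMod 3).val := by
      have e2 : (2 : ZMod 3).val = 2 := by decide
      rw [e2]
      linear_combination -hi
    rw [map_pow, hc, h5, ← ip_mul hi]
    congr 2
    have h3 : ∀ a : ZMod 3, 2 * a = -a := by decide
    exact h3 a
  have hθc : c⁻¹ θ = i₀ ^ e.val * θ := by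
    apply inv_app
    rw [map_mul, hp, he, ← mul_assoc, ← ip_val hi, neg_add_cancel, ZMod.val_zero, pow_zero, one_mul]
  refine rk_two (SS hi (H ⊓ H0 i₀) θ) (SS hi H θ) (im (isE QB) hi) ((jh hi (-e)).comp (pg c))
    (im_im (isE QB) hi) ?_ ?_ ?_ ?_ ?_
  · intro P hP σ hσ a ha
    have h3 : pg σ (im (isE QB) hi P) = im (isE QB) hi (pg σ P) :=
      pm_im σ.toAlgHom hi hi hσ.2 P
    rw [h3, hP σ hσ a ha, jj_im]
  · intro P hP σ hσ a ha
    have hσi : σ i₀ = i₀ := hσ.2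
    have hmem : c⁻¹ * (σ * c) ∈ H ⊓ H0 i₀ := by
      refine Subgroup.mem_inf.2 ⟨mul_mem (inv_mem hcH) (mul_mem hσ.1 hcH), ?_⟩
      show c⁻¹ (σ (c i₀)) = i₀
      rw [hc, map_sub, map_neg, map_one, hσi]
      exact inv_app hc
    have hτ : (c⁻¹ * (σ * c)) θ = i₀ ^ (-a).val * θ := by
      show c⁻¹ (σ (c θ)) = _
      have h6 : σ (i₀ ^ e.val) = i₀ ^ e.val := by rw [map_pow, hσi]
      have h7 : c⁻¹ (i₀ ^ e.val) = i₀ ^ (-e).val := by
        apply inv_app
        rw [hp, neg_neg]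
      have h8 : c⁻¹ (i₀ ^ a.val) = i₀ ^ (-a).val := by
        apply inv_app
        rw [hp, neg_neg]
      rw [he, map_mul, h6, ha, map_mul, map_mul, h7, h8, hθc]
      have h9 : i₀ ^ (-e).val * i₀ ^ e.val = 1 := by
        rw [← ip_val hi, neg_add_cancel, ZMod.val_zero, pow_zero]
      linear_combination (i₀ ^ (-a).val * θ) * h9
    have hact := hP _ hmem (-a) hτ
    have e2 : pg c (pg (c⁻¹ * (σ * c)) P) = pg σ (pg c P) := by
      rw [← pg_mul, mul_inv_cancel_left, pg_mul]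
    show pg σ (jj hi (-e) (pg c P)) = jj hi a (jj hi (-e) (pg c P))
    rw [pg_jj hi hσi, ← e2, hact, pg_jj2 hi hc, neg_neg, jj_jj, jj_jj, add_comm]
  · intro P hP
    have hmem : c * c ∈ H ⊓ H0 i₀ := ⟨mul_mem hcH hcH, hcc⟩
    have hτ : (c * c) θ = i₀ ^ (0 : ZMod 3).val * θ := by
      rw [AlgEquiv.mul_apply, he, map_mul, hp, he, ← mul_assoc, ← ip_val hi, neg_add_cancel]
    have hact := hP _ hmem 0 hτ
    show jj hi (-e) (pg c (jj hi (-e) (pg c P))) = P
    rw [pg_jj2 hi hc, neg_neg, jj_jj, neg_add_cancel, ← pg_mul, hact, jj_jj, add_zero]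
    rfl
  · intro P
    show jj hi (-e) (pg c (im (isE QB) hi P)) = im (isE QB) hi (im (isE QB) hi (jj hi (-e) (pg c P)))
    rw [pg_im2 hi hc, jj_im, jj_im]
  · intro P
    have hcan : jj hi (-e) (pg c P) = P ↔ pg c P = jj hi e P := by
      have := jj_cancel hi e 0 P (pg c P)
      rw [add_zero] at this
      exact this
    constructor
    · intro hP
      refine ⟨fun σ hσ a ha => hP σ hσ.1 a ha, ?_⟩
      exact hcan.2 (hP c hcH e he)
    · rintro ⟨hP, hcP⟩ σ hσ a ha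
      rcases hne σ with h2 | h2
      · exact hP σ ⟨hσ, h2⟩ a ha
      · have hmem : c⁻¹ * σ ∈ H ⊓ H0 i₀ := by
          refine Subgroup.mem_inf.2 ⟨mul_mem (inv_mem hcH) hσ, ?_⟩
          show c⁻¹ (σ i₀) = i₀
          rw [h2]
          exact inv_app hc
        have hτ : (c⁻¹ * σ) θ = i₀ ^ (e - a).val * θ := by
          show c⁻¹ (σ θ) = _
          have h8 : c⁻¹ (i₀ ^ a.val) = i₀ ^ (-a).val := by
            apply inv_app
            rw [hp, neg_neg]
          rw [ha, map_mul, h8, hθc, sub_eq_add_neg, add_comm e, ip_val hi]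
          ring
        have hact := hP _ hmem (e - a) hτ
        have hdec : σ = c * (c⁻¹ * σ) := by rw [mul_inv_cancel_left]
        rw [hdec, pg_mul, hact, pg_jj2 hi hc, hcan.1 hcP, jj_jj]
        congr 1
        ring

end Q283.NR
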