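import Pool.Agent.Q283.NR.R2
import Pool.Agent.Q286.EQ.MW

/-!
# Ranks over the fields generated by cube roots: the formula
-/

set_option autoImplicit false
set_option linter.unusedSectionVars false
set_option linter.unusedVariables false
set_option linter.style.haveILetI false

open scoped Classical Pointwise

namespace Q283.NR

open WeierstrassCurve
open Pool.Agent.Y703.CT
open Pool.Agent.Y715.T.Gi Pool.Agent.Y715.T.Nr Pool.Agent.Y715.T.Df Pool.Agent.Y715.T.Ell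
open Pool.Agent.Y692.CT (PD ac Ph Ph_some Ph_nons ac_some ac_Ph Ph_tw pt_ext ac_mul ac_one it_some)
open Pool.Agent.Y155.CT (jj_add jj_jj jj_im pm_jj jh jh_apply im3 jj_zero)
open Q283.MC

/-- the elements that fix the image of `ψ` -/
noncomputable def HF {F : Type} [Field F] [Algebra ℚ F] (ψ : F →ₐ[ℚ] QB) : Subgroup Gam where
  carrier := {σ | ∀ x, σ (ψ x) = ψ x}
  one_mem' := fun _ => rfl
  mul_mem' := fun {σ τ} hσ hτ x => by rw [AlgEquiv.mul_apply, hτ x, hσ x]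
  inv_mem' := fun {σ} hσ x => inv_app (hσ x)

theorem mem_HF {F : Type} [Field F] [Algebra ℚ F] {ψ : F →ₐ[ℚ] QB} {σ : Gam} :
    σ ∈ HF ψ ↔ ∀ x, σ (ψ x) = ψ x := Iff.rfl

/-- the fixed elements are in the image -/
theorem fixed_range {F : Type} [Field F] [Algebra ℚ F] (ψ : F →ₐ[ℚ] QB) {z : QB}
    (h : ∀ σ ∈ HF ψ, σ z = z) : ∃ x, ψ x = z := by
  have h1 := InfiniteGalois.fixedField_fixingSubgroup ψ.fieldRange
  have h2 : z ∈ IntermediateField.fixedField ψ.fieldRange.fixingSubgroup := by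
    rw [IntermediateField.mem_fixedField_iff]
    intro σ hσ
    refine h σ fun x => ?_
    rw [IntermediateField.mem_fixingSubgroup_iff] at hσ
    exact hσ (ψ x) ⟨x, rfl⟩
  rw [h1] at h2
  exact h2

variable {i₀ : QB} (hi : i₀ ^ 2 + i₀ + 1 = 0)

/-- **The points over a field inside the algebraic closure.** -/
theorem rk_F {F : Type} [Field F] [Algebra ℚ F] (ψ : F →ₐ[ℚ] QB) {D : ℕ}
    (hD : ((D : ℕ) : ℤ) ≠ 0) {θ : QB} (hθ : θ ^ 3 = ((D : ℤ) : QB)) :
    rk (PD D F) = rk (SS hi (HF ψ) θ) := by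
  have hmem : ∀ P : PD D F, (Ph hD hθ).symm (ac D ψ P) ∈ SS hi (HF ψ) θ := by
    intro P
    rw [mem_iff hi hD hθ]
    intro σ hσ
    rw [AddEquiv.apply_symm_apply]
    have h1 := Pool.Agent.TH841.SH.act_act (EQ (WD (D : ℤ))) ψ σ.toAlgHom P
    have h2 : σ.toAlgHom.comp ψ = ψ := AlgHom.ext fun x => hσ x
    refine h1.trans ?_
    rw [h2]
  let f : PD D F →+ SS hi (HF ψ) θ :=
    ((Ph hD hθ).symm.toAddMonoidHom.comp (ac D ψ)).codRestrict (SS hi (HF ψ) θ) hmem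
  have hf : ∀ P, ((f P : SS hi (HF ψ) θ) : Pt QB) = (Ph hD hθ).symm (ac D ψ P) := fun P => rfl
  have hbij : Function.Bijective f := by
    constructor
    · intro P Q h
      have h1 := congrArg (fun x : SS hi (HF ψ) θ => (x : Pt QB)) h
      beta_reduce at h1
      rw [hf, hf] at h1
      exact (Affine.Point.map_injective ψ) ((Ph hD hθ).symm.injective h1)
    · rintro ⟨P, hP⟩
      have h1 := (mem_iff hi hD hθ).1 hP
      have h2 : ∃ Q : PD D F, ac D ψ Q = Ph hD hθ P := by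
        rcases hQ : Ph hD hθ P with _ | ⟨x, y, h⟩
        · exact ⟨0, map_zero _⟩
        · rw [hQ] at h1
          have hxy : ∀ σ ∈ HF ψ, σ x = x ∧ σ y = y := by
            intro σ hσ
            have h1 := h1 σ hσ
            rw [ac_some, Affine.Point.some.injEq] at h1
            exact h1
          obtain ⟨q, hq⟩ := fixed_range ψ fun σ hσ => (hxy σ hσ).1
          obtain ⟨r, hr⟩ := fixed_range ψ fun σ hσ => (hxy σ hσ).2
          subst hq hr
          have h3 := (Affine.baseChange_nonsingular (EQ (WD D)) (f := ψ) ψ.injective q r).mp h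
          exact ⟨.some q r h3, rfl⟩
      obtain ⟨Q, hQ⟩ := h2
      refine ⟨Q, Subtype.ext ?_⟩
      rw [hf, hQ, AddEquiv.symm_apply_apply]
  exact rk_eq (AddEquiv.ofBijective f hbij)

include hi in
theorem two_vals (σ : Gam) : σ i₀ = i₀ ∨ σ i₀ = -1 - i₀ := by
  have h1 : (σ i₀) ^ 2 + σ i₀ + 1 = 0 := by
    rw [← map_pow, ← map_add, ← map_one σ, ← map_add, hi, map_zero]
  have h2 : (σ i₀ - i₀) * (σ i₀ - (-1 - i₀)) = 0 := by linear_combination h1 - hi
  rcases mul_eq_zero.1 h2 with h3 | h3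
  · exact Or.inl (sub_eq_zero.1 h3)
  · exact Or.inr (sub_eq_zero.1 h3)

/-- the rank over `F` -/
noncomputable def rF (D : ℕ) (F : Type) [Field F] [Algebra ℚ F] : Cardinal := rk (PD D F)

/-- the rank over `ℚ` -/
noncomputable def rQ (D : ℕ) : Cardinal := rF D ℚ

theorem rk_base {D : ℕ} (hD : D ≠ 0) {θ : QB} (hθ : θ ^ 3 = ((D : ℕ) : QB)) :
    rk (SS hi (H0 i₀) θ) = rQ D + rQ D := by
  have hDZ : ((D : ℕ) : ℤ) ≠ 0 := by exact_mod_cast hD
  have hθZ : θ ^ 3 = (((D : ℕ) : ℤ) : QB) := by rw [hθ]; push_cast; rfl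
  have hθ0 : θ ≠ 0 := by
    rintro rfl
    rw [zero_pow (by norm_num)] at hθ
    exact hD (by exact_mod_cast hθ.symm)
  obtain ⟨c, hc⟩ := exists_conj hi
  have h1 : HF (Algebra.ofId ℚ QB) = ⊤ := by
    rw [eq_top_iff]
    intro σ _ x
    exact σ.commutes x
  have h2 := quad_rk hi (H := ⊤) (c := c) trivial hc hθ0 hθ
  rw [top_inf_eq] at h2
  have h3 : rQ D = rk (SS hi (HF (Algebra.ofId ℚ QB)) θ) := rk_F hi (Algebra.ofId ℚ QB) hDZ hθZ
  rw [h2, h3, ← h1]

/-- **Cubes do not change the rank.** -/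
theorem rQ_scale {D c : ℕ} (hD : D ≠ 0) (hc : c ≠ 0) : rQ (D * c ^ 3) = rQ D := by
  obtain ⟨i₀, hi⟩ : ∃ i₀ : QB, i₀ ^ 2 + i₀ + 1 = 0 := by
    obtain ⟨z, hz⟩ := IsAlgClosed.exists_pow_nat_eq (-3 : QB) (n := 2) (by norm_num)
    refine ⟨(z - 1) / 2, ?_⟩
    linear_combination (1 / 4 : QB) * hz
  obtain ⟨θ, hθ⟩ := IsAlgClosed.exists_pow_nat_eq (((D : ℤ)) : QB) (n := 3) (by norm_num)
  have hDZ : ((D : ℕ) : ℤ) ≠ 0 := by exact_mod_cast hD
  have hDc : (((D * c ^ 3 : ℕ) : ℕ) : ℤ) ≠ 0 := by exact_mod_cast mul_ne_zero hD (pow_ne_zero 3 hc)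
  have hc0 : (c : QB) ≠ 0 := by exact_mod_cast hc
  have hθ' : (c * θ) ^ 3 = (((D * c ^ 3 : ℕ) : ℤ) : QB) := by
    rw [mul_pow, hθ]
    push_cast
    ring
  have e1 : rQ D = rk (SS hi (HF (Algebra.ofId ℚ QB)) θ) := rk_F hi (Algebra.ofId ℚ QB) hDZ hθ
  have e2 : rQ (D * c ^ 3) = rk (SS hi (HF (Algebra.ofId ℚ QB)) (c * θ)) :=
    rk_F hi (Algebra.ofId ℚ QB) hDc hθ'
  rw [e1, e2]
  have h1 : SS hi (HF (Algebra.ofId ℚ QB)) (c * θ) = SS hi (HF (Algebra.ofId ℚ QB)) θ := by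
    ext P
    rw [mem_SS, mem_SS]
    refine forall_congr' fun σ => forall_congr' fun _ => forall_congr' fun a => ?_
    have h2 : (σ (c * θ) = i₀ ^ a.val * (c * θ)) ↔ (σ θ = i₀ ^ a.val * θ) := by
      rw [map_mul, map_natCast]
      constructor
      · intro h
        apply mul_left_cancel₀ hc0
        rw [h]
        ring
      · intro h
        rw [h]
        ring
    rw [h2]
  rw [h1]

theorem rF_lt {D : ℕ} (hD : D ≠ 0) (F : Type) [Field F] [Algebra ℚ F] [NumberField F] :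
    rF D F < Cardinal.aleph0 := by
  have hΔ : ((EQ (WD (D : ℤ))).baseChange F).Δ ≠ 0 := by
    have h0 : (EQ (WD (D : ℤ))).baseChange F = ⟨0, 0, (D : F), 0, 0⟩ := by
      ext <;> simp [WD, EQ, WeierstrassCurve.baseChange, WeierstrassCurve.map]
    rw [h0]
    have h1 : (⟨0, 0, (D : F), 0, 0⟩ : WeierstrassCurve F).Δ = -27 * (D : F) ^ 4 := by
      simp [WeierstrassCurve.Δ, WeierstrassCurve.b₂, WeierstrassCurve.b₄, WeierstrassCurve.b₆,
        WeierstrassCurve.b₈]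
      ring
    rw [h1]
    have h2 : (D : F) ≠ 0 := by exact_mod_cast hD
    exact mul_ne_zero (by norm_num) (pow_ne_zero 4 h2)
  have h1 := Pool.Agent.Q286.EQ.mordell_weil F _ hΔ
  rw [← Module.Finite.iff_addGroup_fg] at h1
  exact Module.rank_lt_aleph0 ℤ _

theorem rQ_lt {D : ℕ} (hD : D ≠ 0) : rQ D < Cardinal.aleph0 := rF_lt hD ℚ

theorem dbl {a b : Cardinal} (hb : b < Cardinal.aleph0) (h : a + a = b + b) : a = b := by
  have ha : a < Cardinal.aleph0 := by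
    refine lt_of_le_of_lt (self_le_add_right a a) ?_
    rw [h]
    exact Cardinal.add_lt_aleph0 hb hb
  obtain ⟨m, rfl⟩ := Cardinal.lt_aleph0.1 ha
  obtain ⟨n, rfl⟩ := Cardinal.lt_aleph0.1 hb
  have h1 : m + m = n + n := by exact_mod_cast h
  have h2 : m = n := by omega
  rw [h2]

end Q283.NR
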