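import Pool.Agent.Q283.NR.R3

/-!
# The degree and the rank of a field generated by cube roots
-/

set_option autoImplicit false
set_option linter.unusedSectionVars false
set_option linter.unusedVariables false
set_option linter.style.haveILetI false

open scoped Classical Pointwise

namespace Q283.NR

open WeierstrassCurve Module
open Pool.Agent.Y703.CT
open Pool.Agent.Y715.T.Gi Pool.Agent.Y715.T.Nr Pool.Agent.Y715.T.Df Pool.Agent.Y715.T.Ell
open Pool.Agent.Y692.CT (PD ac Ph Ph_some Ph_nons ac_some ac_Ph Ph_tw pt_ext ac_mul ac_one it_some)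
open Pool.Agent.Y155.CT (jj_add jj_jj jj_im pm_jj jh jh_apply im3 jj_zero)
open Q283.MC

theorem exists_i : ∃ i₀ : QB, i₀ ^ 2 + i₀ + 1 = 0 := by
  obtain ⟨z, hz⟩ := IsAlgClosed.exists_pow_nat_eq (-3 : QB) (n := 2) (by norm_num)
  refine ⟨(z - 1) / 2, ?_⟩
  linear_combination (1 / 4 : QB) * hz

section
variable {F : Type} [Field F] [NumberField F] {k : ℕ} {d : Fin k → ℕ} {t : Fin k → F}
variable {i₀ : QB} (hi : i₀ ^ 2 + i₀ + 1 = 0)

/-- two homomorphisms that agree on the generators -/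
theorem hom_ext (hgen : IntermediateField.adjoin ℚ ({x : F | x ^ 3 = 1} ∪ Set.range t) = ⊤)
    {τ τ' : F →ₐ[ℚ] QB} (h1 : ∀ x : F, x ^ 3 = 1 → τ x = τ' x) (h2 : ∀ j, τ (t j) = τ' (t j)) :
    τ = τ' := by
  refine AlgHom.ext fun x => ?_
  have hx : x ∈ (⊤ : IntermediateField ℚ F) := trivial
  rw [← hgen] at hx
  refine IntermediateField.adjoin_induction ℚ (p := fun y _ => τ y = τ' y) ?_ ?_ ?_ ?_ ?_ hx
  · rintro x (hx | ⟨j, rfl⟩)
    · exact h1 x hx
    · exact h2 j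
  · intro y
    exact (τ.commutes y).trans (τ'.commutes y).symm
  · intro x y _ _ hx hy
    rw [map_add, map_add, hx, hy]
  · intro x _ hx
    rw [map_inv₀, map_inv₀, hx]
  · intro x y _ _ hx hy
    rw [map_mul, map_mul, hx, hy]

theorem root_cases {F : Type} [Field F] {x w : F} (hw : w ^ 2 + w + 1 = 0) (hx : x ^ 3 = 1) :
    x = 1 ∨ x = w ∨ x = w ^ 2 := by
  have h3 : w ^ 3 = 1 := by linear_combination (w - 1) * hw
  have h6 : (x - 1) * ((x - w) * (x - w ^ 2)) = 0 := by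
    linear_combination hx + (-x ^ 2 + x) * hw + (x - 1) * h3
  rcases mul_eq_zero.1 h6 with h7 | h7
  · exact Or.inl (sub_eq_zero.1 h7)
  · rcases mul_eq_zero.1 h7 with h8 | h8
    · exact Or.inr (Or.inl (sub_eq_zero.1 h8))
    · exact Or.inr (Or.inr (sub_eq_zero.1 h8))

theorem root_one (hw : ¬ ∃ w : F, w ^ 2 + w + 1 = 0) {x : F} (hx : x ^ 3 = 1) : x = 1 := by
  by_contra h
  apply hw
  refine ⟨x, ?_⟩
  apply mul_left_cancel₀ (sub_ne_zero.2 h)
  linear_combination hx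

include hi in
/-- the elements over `i₀` fixing the field -/
theorem inf_eq (hgen : IntermediateField.adjoin ℚ ({x : F | x ^ 3 = 1} ∪ Set.range t) = ⊤)
    (ψ : F →ₐ[ℚ] QB) : HF ψ ⊓ H0 i₀ = Hk (H0 i₀) fun j => ψ (t j) := by
  ext σ
  constructor
  · rintro ⟨h1, h2⟩
    exact ⟨h2, fun j => h1 (t j)⟩
  · rintro ⟨h1, h2⟩
    refine ⟨?_, h1⟩
    have h3 : σ.toAlgHom.comp ψ = ψ := by
      refine hom_ext hgen (fun x hx => ?_) h2
      show σ (ψ x) = ψ x
      have h5 : (ψ x) ^ 3 = 1 := by rw [← map_pow, hx, map_one]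
      have hσi : σ i₀ = i₀ := h1
      have h6 : (ψ x - 1) * ((ψ x - i₀) * (ψ x - i₀ ^ 2)) = 0 := by
        linear_combination h5 + (-(ψ x) ^ 2 + ψ x) * hi + (ψ x - 1) * ip3 hi
      rcases mul_eq_zero.1 h6 with h7 | h7
      · rw [sub_eq_zero.1 h7, map_one]
      · rcases mul_eq_zero.1 h7 with h8 | h8
        · rw [sub_eq_zero.1 h8, hσi]
        · rw [sub_eq_zero.1 h8, map_pow, hσi]
    exact fun x => DFunLike.congr_fun h3 x

/-- **The rank.** -/
theorem rank_formula (hcube : ∀ j, t j ^ 3 = (d j : F))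
    (hgen : IntermediateField.adjoin ℚ ({x : F | x ^ 3 = 1} ∪ Set.range t) = ⊤)
    (hd : Ind d) {N : ℕ} (hN : N ≠ 0) :
    ((¬ ∃ w : F, w ^ 2 + w + 1 = 0) → rF N F = ∑ e : Fin k → ZMod 3, rQ (N * ∏ j, d j ^ (e j).val)) ∧
    ((∃ w : F, w ^ 2 + w + 1 = 0) → rF N F = ∑ e : Fin k → ZMod 3, rQ (N * ∏ j, d j ^ (e j).val) +
      ∑ e : Fin k → ZMod 3, rQ (N * ∏ j, d j ^ (e j).val)) := by
  obtain ⟨i₀, hi⟩ := exists_i
  obtain ⟨θ, hθ⟩ := IsAlgClosed.exists_pow_nat_eq (((N : ℤ)) : QB) (n := 3) (by norm_num)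
  have hθn : θ ^ 3 = ((N : ℕ) : QB) := by rw [hθ]; push_cast; rfl
  have ψ : F →ₐ[ℚ] QB := IsAlgClosed.lift
  have hDZ : ((N : ℕ) : ℤ) ≠ 0 := by exact_mod_cast hN
  have hN0 : ((N : ℕ) : QB) ≠ 0 := by exact_mod_cast hN
  have hθ0 : θ ≠ 0 := by
    rintro rfl
    rw [zero_pow (by norm_num)] at hθn
    exact hN0 hθn.symm
  have ht3 : ∀ j, ψ (t j) ^ 3 = (d j : QB) := fun j => by rw [← map_pow, hcube, map_natCast]
  have ht0 : ∀ j, ψ (t j) ≠ 0 := by
    intro j h
    have h1 := ht3 j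
    rw [h, zero_pow (by norm_num)] at h1
    exact hd.ne_zero j (by exact_mod_cast h1.symm)
  have hne : ∀ e : Fin k → ZMod 3, N * ∏ j, d j ^ (e j).val ≠ 0 := fun e =>
    mul_ne_zero hN (Finset.prod_ne_zero_iff.2 fun j _ => pow_ne_zero _ (hd.ne_zero j))
  have hK : rk (SS hi (Hk (H0 i₀) fun j => ψ (t j)) θ) =
      ∑ e : Fin k → ZMod 3, rQ (N * ∏ j, d j ^ (e j).val) +
      ∑ e : Fin k → ZMod 3, rQ (N * ∏ j, d j ^ (e j).val) := by
    rw [steps_rk hi (fun σ hσ => hσ) k (fun j => ψ (t j)) d θ N hθ0 ht0 hθn ht3 fun c => ?_,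
      ← Finset.sum_add_distrib]
    · refine Finset.sum_congr rfl fun e _ => rk_base hi (hne e) ?_
      rw [mul_pow, hθn, ← Finset.prod_pow]
      push_cast
      congr 1
      refine Finset.prod_congr rfl fun j _ => ?_
      rw [← pow_mul, mul_comm, pow_mul, ht3]
    · obtain ⟨σ, h1, h2⟩ := surj hi hd ht3 c
      exact ⟨σ, h1, h2⟩
  have hF : rF N F = rk (SS hi (HF ψ) θ) := rk_F hi ψ hDZ hθ
  have hlt : ∑ e : Fin k → ZMod 3, rQ (N * ∏ j, d j ^ (e j).val) < Cardinal.aleph0 := by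
    refine Finset.sum_induction _ (fun c => c < Cardinal.aleph0)
      (fun a b => Cardinal.add_lt_aleph0) Cardinal.aleph0_pos fun e _ => rQ_lt (hne e)
  constructor
  · intro hw
    have hex : ∃ c ∈ HF ψ, c i₀ = -1 - i₀ := by
      by_contra hcon
      push Not at hcon
      obtain ⟨w, hw2⟩ := fixed_range ψ fun σ hσ => (two_vals hi σ).resolve_right (hcon σ hσ)
      apply hw
      refine ⟨w, ?_⟩
      have h5 : ψ (w ^ 2 + w + 1) = 0 := by
        rw [map_add, map_add, map_pow, map_one, hw2, hi]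
      exact (map_eq_zero ψ).1 h5
    obtain ⟨c, hc, hci⟩ := hex
    have h1 := quad_rk hi hc hci hθ0 hθn
    rw [inf_eq hi hgen ψ, hK] at h1
    rw [hF]
    exact dbl hlt h1.symm
  · rintro ⟨w, hw⟩
    have h1 : HF ψ ≤ H0 i₀ := by
      intro σ hσ
      have h2 : (ψ w) ^ 2 + ψ w + 1 = 0 := by
        rw [← map_pow, ← map_add, ← map_one ψ, ← map_add, hw, map_zero]
      have h3 := root_cases (F := QB) hi (x := ψ w) (by linear_combination (ψ w - 1) * h2)
      have h4 : σ (ψ w) = ψ w := hσ w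
      show σ i₀ = i₀
      rcases h3 with h5 | h5 | h5
      · rw [h5] at h2
        norm_num at h2
      · rw [← h5]
        exact h4
      · have h6 : i₀ = (ψ w) ^ 2 := by
          rw [h5]
          linear_combination (-i₀) * ip3 hi
        rw [h6, map_pow, h4]
    have h2 : HF ψ = Hk (H0 i₀) fun j => ψ (t j) := by
      rw [← inf_eq hi hgen ψ]
      exact (inf_eq_left.2 h1).symm
    rw [hF, h2, hK]

/-- **The degree.** -/
theorem degree (hcube : ∀ j, t j ^ 3 = (d j : F))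
    (hgen : IntermediateField.adjoin ℚ ({x : F | x ^ 3 = 1} ∪ Set.range t) = ⊤)
    (hd : Ind d) :
    ((¬ ∃ w : F, w ^ 2 + w + 1 = 0) → finrank ℚ F = 3 ^ k) ∧
    ((∃ w : F, w ^ 2 + w + 1 = 0) → finrank ℚ F = 2 * 3 ^ k) := by
  obtain ⟨i₀, hi⟩ := exists_i
  have ψ : F →ₐ[ℚ] QB := IsAlgClosed.lift
  have ht3 : ∀ j, ψ (t j) ^ 3 = (d j : QB) := fun j => by rw [← map_pow, hcube, map_natCast]
  obtain ⟨r, hr⟩ := deg_dvd hcube hd
  have hpos : 0 < finrank ℚ F := Module.finrank_pos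
  have hex : ∀ (τ : F →ₐ[ℚ] QB) (j : Fin k), ∃ c : ZMod 3, τ (t j) = i₀ ^ c.val * ψ (t j) := by
    intro τ j
    have h1 : (τ (t j)) ^ 3 = (ψ (t j)) ^ 3 := by rw [← map_pow, hcube, map_natCast, ht3]
    have h2 : (τ (t j) - ψ (t j)) * ((τ (t j) - i₀ * ψ (t j)) * (τ (t j) - i₀ ^ 2 * ψ (t j))) = 0 := by
      linear_combination h1 + ((τ (t j)) ^ 2 * (-ψ (t j))  + (τ (t j)) * ψ (t j) ^ 2) * hi +
        ((τ (t j)) * ψ (t j) ^ 2 - ψ (t j) ^ 3) * ip3 hi
    rcases mul_eq_zero.1 h2 with h | h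
    · exact ⟨0, by rw [ZMod.val_zero, pow_zero, one_mul]; exact sub_eq_zero.1 h⟩
    rcases mul_eq_zero.1 h with h | h
    · exact ⟨1, by
        have : (1 : ZMod 3).val = 1 := by decide
        rw [this, pow_one]; exact sub_eq_zero.1 h⟩
    · exact ⟨2, by
        have : (2 : ZMod 3).val = 2 := by decide
        rw [this]; exact sub_eq_zero.1 h⟩
  choose π hπ using hex
  have hcard : finrank ℚ F = Fintype.card (F →ₐ[ℚ] QB) := (AlgHom.card ℚ F QB).symm
  have h3k : Fintype.card (Fin k → ZMod 3) = 3 ^ k := by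
    rw [Fintype.card_fun, ZMod.card, Fintype.card_fin]
  have h3pos : 0 < 3 ^ k := by positivity
  constructor
  · intro hw
    have hinj : Function.Injective π := by
      intro τ τ' h
      refine hom_ext hgen (fun x hx => ?_) fun j => ?_
      · rw [root_one hw hx, map_one, map_one]
      · rw [hπ τ, hπ τ', h]
    have h1 := Fintype.card_le_of_injective π hinj
    rw [← hcard, h3k, hr] at h1
    have h2 : r ≤ 1 := by
      by_contra h
      push Not at h
      have : 3 ^ k * 2 ≤ 3 ^ k * r := Nat.mul_le_mul_left _ h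
      omega
    have h4 : r ≠ 0 := by
      rintro rfl
      rw [hr, mul_zero] at hpos
      exact lt_irrefl _ hpos
    have h5 : r = 1 := by omega
    rw [hr, h5, mul_one]
  · rintro ⟨w, hw⟩
    obtain ⟨c, hc⟩ := exists_conj hi
    have hτw : ∀ τ : F →ₐ[ℚ] QB, τ w = i₀ ∨ τ w = -1 - i₀ := by
      intro τ
      have h2 : (τ w) ^ 2 + τ w + 1 = 0 := by
        rw [← map_pow, ← map_add, ← map_one τ, ← map_add, hw, map_zero]
      have h3 : (τ w - i₀) * (τ w - (-1 - i₀)) = 0 := by linear_combination h2 - hi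
      rcases mul_eq_zero.1 h3 with h3 | h3
      · exact Or.inl (sub_eq_zero.1 h3)
      · exact Or.inr (sub_eq_zero.1 h3)
    have hii : (-1 - i₀ : QB) ≠ i₀ := by
      intro h
      have h1 : i₀ = -1 / 2 := by linear_combination (-1 / 2 : QB) * h
      rw [h1] at hi
      norm_num at hi
    have hS : (Finset.univ.filter fun τ : F →ₐ[ℚ] QB => ¬ τ w = i₀).card =
        (Finset.univ.filter fun τ : F →ₐ[ℚ] QB => τ w = i₀).card := by
      refine (Finset.card_bij (fun τ _ => (c.toAlgHom).comp τ) ?_ ?_ ?_).symm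
      · intro τ hτ
        rw [Finset.mem_filter] at hτ ⊢
        refine ⟨Finset.mem_univ _, ?_⟩
        show ¬ c (τ w) = i₀
        rw [hτ.2, hc]
        exact hii
      · intro τ _ τ' _ h
        refine AlgHom.ext fun x => c.injective ?_
        exact DFunLike.congr_fun h x
      · intro τ hτ
        rw [Finset.mem_filter] at hτ
        refine ⟨(c⁻¹ : Gam).toAlgHom.comp τ, ?_, ?_⟩
        · rw [Finset.mem_filter]
          refine ⟨Finset.mem_univ _, ?_⟩
          show c⁻¹ (τ w) = i₀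
          rw [(hτw τ).resolve_left hτ.2]
          exact inv_app hc
        · refine AlgHom.ext fun x => ?_
          exact c.apply_symm_apply (τ x)
    have htot : Fintype.card (F →ₐ[ℚ] QB) =
        2 * (Finset.univ.filter fun τ : F →ₐ[ℚ] QB => τ w = i₀).card := by
      have h1 := Finset.card_filter_add_card_filter_not (s := (Finset.univ : Finset (F →ₐ[ℚ] QB)))
        (fun τ => τ w = i₀)
      rw [hS, Finset.card_univ] at h1
      omega
    have hle : (Finset.univ.filter fun τ : F →ₐ[ℚ] QB => τ w = i₀).card ≤ 3 ^ k := by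
      rw [← h3k, ← Finset.card_univ]
      refine Finset.card_le_card_of_injOn π (fun _ _ => Finset.mem_univ _) ?_
      intro τ hτ τ' hτ' h
      have h1 : τ w = i₀ := (Finset.mem_filter.1 hτ).2
      have h2 : τ' w = i₀ := (Finset.mem_filter.1 hτ').2
      refine hom_ext hgen (fun x hx => ?_) fun j => ?_
      · rcases root_cases hw hx with h3 | h3 | h3
        · rw [h3, map_one, map_one]
        · rw [h3, h1, h2]
        · rw [h3, map_pow, map_pow, h1, h2]
      · rw [hπ τ, hπ τ', h]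
    rw [hcard, htot] at hr
    rw [hcard, htot]
    congr 1
    have h5 : 3 ^ k ∣ (Finset.univ.filter fun τ : F →ₐ[ℚ] QB => τ w = i₀).card := by
      refine (Nat.Coprime.pow_left k (by norm_num : Nat.Coprime 3 2)).dvd_of_dvd_mul_left ?_
      exact ⟨r, hr⟩
    refine le_antisymm hle (Nat.le_of_dvd ?_ h5)
    rw [hcard, htot] at hpos
    omega

/-- the degree and the rank together; `r = 1` or `r = 2` -/
theorem field_rank (hcube : ∀ j, t j ^ 3 = (d j : F))
    (hgen : IntermediateField.adjoin ℚ ({x : F | x ^ 3 = 1} ∪ Set.range t) = ⊤)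
    (hd : Ind d) {N : ℕ} (hN : N ≠ 0) : ∃ r : ℕ, (r = 1 ∨ r = 2) ∧ finrank ℚ F = r * 3 ^ k ∧
      Cardinal.toNat (rF N F) =
        r * ∑ e : Fin k → ZMod 3, Cardinal.toNat (rQ (N * ∏ j, d j ^ (e j).val)) := by
  obtain ⟨h1, h2⟩ := rank_formula hcube hgen hd hN
  obtain ⟨h3, h4⟩ := degree hcube hgen hd
  have hne : ∀ e : Fin k → ZMod 3, N * ∏ j, d j ^ (e j).val ≠ 0 := fun e =>
    mul_ne_zero hN (Finset.prod_ne_zero_iff.2 fun j _ => pow_ne_zero _ (hd.ne_zero j))
  have hsum : ∀ s : Finset (Fin k → ZMod 3), ∑ e ∈ s, rQ (N * ∏ j, d j ^ (e j).val) =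
      ((∑ e ∈ s, Cardinal.toNat (rQ (N * ∏ j, d j ^ (e j).val)) : ℕ) : Cardinal) := by
    intro s
    rw [Nat.cast_sum]
    refine Finset.sum_congr rfl fun e _ => ?_
    rw [Cardinal.cast_toNat_of_lt_aleph0 (rQ_lt (hne e))]
  by_cases hw : ∃ w : F, w ^ 2 + w + 1 = 0
  · refine ⟨2, Or.inr rfl, h4 hw, ?_⟩
    rw [h2 hw, hsum, ← Nat.cast_add, Cardinal.toNat_natCast]
    ring
  · refine ⟨1, Or.inl rfl, by rw [h3 hw, one_mul], ?_⟩
    rw [h1 hw, hsum, Cardinal.toNat_natCast, one_mul]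

end

end Q283.NR
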