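import Pool.Agent.Q283.NR.R4
import Pool.Agent.Q283.MC.Tf

/-!
# The order of the `L`-function over a field generated by cube roots
-/

set_option autoImplicit false
set_option linter.unusedSectionVars false
set_option linter.style.haveILetI false

open scoped Classical

namespace Q283.NR

open NumberField IsDedekindDomain Module Filter
open Pool.Agent.H921R2.TatePole (below deg nm nm_eq nm_summable two_le_nm fiber_finite)
open Pool.Agent.H82R3.EK (luc luc_eq nm_cpow prime_cpow natCast_mem_iff)
open Pool.Agent.Y703.CT (WD IsL EQ Cls)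
open Q283.MC

/-- products and orders -/
theorem ord_prod {ι : Type} (s : Finset ι) (f : ι → ℂ → ℂ) (hf : ∀ i ∈ s, AnalyticAt ℂ (f i) 1) :
    AnalyticAt ℂ (fun z => ∏ i ∈ s, f i z) 1 ∧
      analyticOrderAt (fun z => ∏ i ∈ s, f i z) 1 = ∑ i ∈ s, analyticOrderAt (f i) 1 := by
  induction s using Finset.induction_on with
  | empty =>
    simp only [Finset.prod_empty, Finset.sum_empty]
    exact ⟨analyticAt_const, (analyticAt_const.analyticOrderAt_eq_zero).2 one_ne_zero⟩
  | insert i s hi ih =>
    obtain ⟨h1, h2⟩ := ih fun j hj => hf j (Finset.mem_insert_of_mem hj)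
    have h3 := hf i (Finset.mem_insert_self i s)
    have e : (fun z => ∏ j ∈ insert i s, f j z) = f i * fun z => ∏ j ∈ s, f j z := by
      funext z
      rw [Finset.prod_insert hi]
      rfl
    rw [e, Finset.sum_insert hi]
    exact ⟨h3.mul h1, by rw [analyticOrderAt_mul h3 h1, h2]⟩

/-- the Euler factors are entire in `s` -/
theorem EL_diff {D p : ℕ} (hp : p.Prime) : Differentiable ℂ fun s => EL D s p := by
  have hp0 : (p : ℂ) ≠ 0 := by exact_mod_cast hp.ne_zero
  unfold EL
  refine Differentiable.add (Differentiable.sub (differentiable_const _)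
    ((differentiable_const _).mul ?_)) ?_
  · exact (differentiable_id.neg).const_cpow (Or.inl hp0)
  · split_ifs
    · exact differentiable_const _
    · exact (((differentiable_const _).sub ((differentiable_const _).mul
        differentiable_id))).const_cpow (Or.inl hp0)

variable {k : ℕ} {d : Fin k → ℕ} {N : ℕ}

/-- **The `L`-function over `F` and its order.** -/
theorem glo_ord {r : ℕ} {F : Type} [Field F] [NumberField F] {θ : Fin k → F} (h : Rd r F d θ)
    (hN : N ≠ 0) (hd : ∀ j, d j ≠ 0) {D c : (Fin k → ZMod 3) → ℕ}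
    (hDc : ∀ e, tw N d e = D e * (c e) ^ 3) {f : (Fin k → ZMod 3) → ℂ → ℂ}
    (hf : ∀ e, IsL (WD ((D e : ℕ) : ℤ)) (f e)) :
    ∃ L : ℂ → ℂ, Differentiable ℂ L ∧
      (∀ s : ℂ, 3 / 2 < s.re → HasProd (eF (F := F) (MM N d) N s) (L s)) ∧
      analyticOrderAt L 1 = r * ∑ e, analyticOrderAt (f e) 1 := by
  have hM := MM_ne hN hd
  have hdf : ∀ e, Differentiable ℂ fun s => f e s * ∏ p ∈ (MM N d).primeFactors, EL (D e) s p :=
    fun e => (hf e).1.mul (Differentiable.fun_finsetProd fun p hp =>
      EL_diff (Nat.mem_primeFactors.1 hp).1)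
  refine ⟨fun s => (∏ e, (f e s * ∏ p ∈ (MM N d).primeFactors, EL (D e) s p)) ^ r, ?_,
    fun s hs => ?_, ?_⟩
  · exact Differentiable.fun_pow (Differentiable.fun_finsetProd fun e _ => hdf e) r
  · have h1 : HasProd (fun p : Nat.Primes => (∏ e : Fin k → ZMod 3,
        (if (p : ℕ) ∣ MM N d then 1 else (EL (D e) s p)⁻¹)) ^ r)
        ((∏ e, (f e s * ∏ p ∈ (MM N d).primeFactors, EL (D e) s p)) ^ r) :=
      hasProd_pow (hasProd_prod fun e _ => strip (hf e) hM hs) r
    have h2 : ∀ p : Nat.Primes, (∏ e : Fin k → ZMod 3,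
        (if (p : ℕ) ∣ MM N d then 1 else (EL (D e) s p)⁻¹)) ^ r =
        ∏ v : {v : HeightOneSpectrum (𝓞 F) // below v = p}, gv (MM N d) N s v.1 := by
      intro p
      by_cases hp : (p : ℕ) ∣ MM N d
      · have e1 : ∀ v : {v : HeightOneSpectrum (𝓞 F) // below v = p},
            gv (MM N d) N s v.1 = 1 := by
          intro v
          unfold gv
          rw [if_pos]
          rw [natCast_mem_iff, v.2]
          exact hp
        simp only [if_pos hp, Finset.prod_const_one, one_pow]
        rw [Finset.prod_congr rfl fun v _ => e1 v, Finset.prod_const_one]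
      · have e1 : ∀ v : {v : HeightOneSpectrum (𝓞 F) // below v = p},
            gv (MM N d) N s v.1 = fv N s v.1 := by
          intro v
          unfold gv
          rw [if_neg]
          rw [natCast_mem_iff, v.2]
          exact hp
        obtain ⟨a2, a3, a4, a5⟩ := MM_ndvd p.2 hp
        simp only [if_neg hp]
        rw [Finset.prod_congr rfl fun v _ => e1 v, local_id h p a2 a3 a4 a5]
        congr 1
        exact Finset.prod_congr rfl fun e _ => (fq_eq hDc p.2 hp e s).symm
    simp_rw [h2] at h1
    have h3 : HasProd (gv (F := F) (MM N d) N s)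
        ((∏ e, (f e s * ∏ p ∈ (MM N d).primeFactors, EL (D e) s p)) ^ r) := by
      rw [← (Equiv.sigmaFiberEquiv (below (K := F))).hasProd_iff]
      refine HasProd.sigma_of_hasProd h1 (fun p => ?_) ?_
      · exact hasProd_fintype _
      · exact (Equiv.sigmaFiberEquiv (below (K := F))).multipliable_iff.2 (gv_mult hN hd hs)
    exact h3.congr_fun fun v => eF_eq s v
  · have h1 : ∀ e, analyticOrderAt (fun s => f e s * ∏ p ∈ (MM N d).primeFactors, EL (D e) s p) 1 =
        analyticOrderAt (f e) 1 := by
      intro e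
      have a1 : AnalyticAt ℂ (f e) 1 := (hf e).1.analyticAt 1
      have a2 : AnalyticAt ℂ (fun s => ∏ p ∈ (MM N d).primeFactors, EL (D e) s p) 1 :=
        (Differentiable.fun_finsetProd fun p hp =>
          EL_diff (D := D e) (Nat.mem_primeFactors.1 hp).1).analyticAt 1
      have a3 : analyticOrderAt (fun s => ∏ p ∈ (MM N d).primeFactors, EL (D e) s p) 1 = 0 := by
        rw [a2.analyticOrderAt_eq_zero, Finset.prod_ne_zero_iff]
        intro p hp
        exact EL_ne (Nat.mem_primeFactors.1 hp).1 (by simp)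
      have h2 : analyticOrderAt (f e * fun s => ∏ p ∈ (MM N d).primeFactors, EL (D e) s p) 1 =
          analyticOrderAt (f e) 1 := by rw [analyticOrderAt_mul a1 a2, a3, add_zero]
      exact h2
    obtain ⟨h3, h4⟩ := ord_prod Finset.univ
      (fun e s => f e s * ∏ p ∈ (MM N d).primeFactors, EL (D e) s p)
      fun e _ => (hdf e).analyticAt 1
    have h5 : analyticOrderAt ((fun s => ∏ e, (f e s * ∏ p ∈ (MM N d).primeFactors,
        EL (D e) s p)) ^ r) 1 = r * ∑ e, analyticOrderAt (f e) 1 := by
      rw [analyticOrderAt_pow h3, h4, Finset.sum_congr rfl fun e _ => h1 e, nsmul_eq_mul]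
    exact h5

/-- over `ℚ` itself -/
theorem rd_Q : Rd 1 ℚ (fun _ : Fin 0 => 1) (fun _ => (1 : ℚ)) where
  cube := fun j => j.elim0
  gen := by
    rw [eq_top_iff]
    intro x _
    exact IntermediateField.algebraMap_mem _ x
  deg := by rw [pow_zero, mul_one]; exact Module.finrank_self ℚ

end Q283.NR
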