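import Pool.Agent.Q283.NK.G1
import Pool.Agent.Q283.MC.Ind

/-! Independent tuples of divisors; large deviations of the product law -/

set_option autoImplicit false
set_option linter.unusedSectionVars false

open scoped Classical
open Finset Filter

namespace Q283.NR

open Q283.Q3N (fe fe_ne fe_mul fe_cube fe_pow fe_one)
open Q283.Q3 (cq cq_ge cq_zero sum_cq)
open Q283.Q3B (rr cq_succ cq_one cq_two ms ms_hasSum)
open Q283.NJ (msJ msJ_hasSum LwJ sp PL)
open Q283.NK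
open Pool.Agent.Y703.CT (Cls Base)
open Pool.Agent.Y703.CX (c3)
open Q283.ND (Dc cf cf_mul cf_ne cf_free fe_cf Dk mem_Dk)

/-! ## large deviations -/

theorem geo2 (r : ℕ) : cq (r + 2) * ((1.07 : ℝ) ^ (2 * (r + 2)) / 1.07) ≤
    cq 2 * ((1.07 : ℝ) ^ 4 / 1.07) * (1 / 100) ^ r := by
  induction r with
  | zero => norm_num
  | succ r ih =>
    have h3 : (27 : ℝ) ≤ 3 ^ (r + 2 + 1) := by
      calc (27 : ℝ) = 3 ^ 3 := by norm_num
        _ ≤ 3 ^ (r + 2 + 1) := pow_le_pow_right₀ (by norm_num) (by omega)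
    have h4 : (676 : ℝ) ≤ ((3 : ℝ) ^ (r + 2 + 1) - 1) ^ 2 := by nlinarith
    have h5 : (3 : ℝ) / ((3 : ℝ) ^ (r + 2 + 1) - 1) ^ 2 ≤ 3 / 676 :=
      div_le_div_of_nonneg_left (by norm_num) (by norm_num) h4
    have h0 := cq_ge (r + 2)
    have e1 : cq (r + 1 + 2) = cq (r + 2) * (3 / ((3 : ℝ) ^ (r + 2 + 1) - 1) ^ 2) :=
      cq_succ (r + 2)
    have e2 : (1.07 : ℝ) ^ (2 * (r + 1 + 2)) = 1.07 ^ (2 * (r + 2)) * 1.1449 := by
      have : 2 * (r + 1 + 2) = 2 * (r + 2) + 2 := by ring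
      rw [this, pow_add]
      norm_num
    rw [e1, e2]
    have h6 : 0 ≤ cq (r + 2) * ((1.07 : ℝ) ^ (2 * (r + 2)) / 1.07) := mul_nonneg h0 (by positivity)
    calc cq (r + 2) * (3 / ((3 : ℝ) ^ (r + 2 + 1) - 1) ^ 2) * (1.07 ^ (2 * (r + 2)) * 1.1449 / 1.07)
        = cq (r + 2) * ((1.07 : ℝ) ^ (2 * (r + 2)) / 1.07) *
          (3 / ((3 : ℝ) ^ (r + 2 + 1) - 1) ^ 2 * 1.1449) := by ring
      _ ≤ cq (r + 2) * ((1.07 : ℝ) ^ (2 * (r + 2)) / 1.07) * (1 / 100) := by
          refine mul_le_mul_of_nonneg_left ?_ h6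
          calc 3 / ((3 : ℝ) ^ (r + 2 + 1) - 1) ^ 2 * 1.1449 ≤ 3 / 676 * 1.1449 :=
                mul_le_mul_of_nonneg_right h5 (by norm_num)
            _ ≤ 1 / 100 := by norm_num
      _ ≤ cq 2 * ((1.07 : ℝ) ^ 4 / 1.07) * (1 / 100) ^ r * (1 / 100) :=
          mul_le_mul_of_nonneg_right ih (by norm_num)
      _ = cq 2 * ((1.07 : ℝ) ^ 4 / 1.07) * (1 / 100) ^ (r + 1) := by ring

theorem pgf : ∃ v : ℝ, HasSum (fun r : ℕ => cq r * ((1.07 : ℝ) ^ (2 * r) / 1.07)) v ∧ v ≤ 0.998 := by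
  have hg := (summable_geometric_of_lt_one (r := (1 / 100 : ℝ)) (by norm_num) (by norm_num)).mul_left
    (cq 2 * ((1.07 : ℝ) ^ 4 / 1.07))
  have h1 : Summable fun r : ℕ => cq (r + 2) * ((1.07 : ℝ) ^ (2 * (r + 2)) / 1.07) :=
    Summable.of_nonneg_of_le (fun r => mul_nonneg (cq_ge _) (by positivity)) geo2 hg
  have h2 : Summable fun r : ℕ => cq r * ((1.07 : ℝ) ^ (2 * r) / 1.07) :=
    (summable_nat_add_iff 2).1 h1
  refine ⟨_, h2.hasSum, ?_⟩
  rw [← h2.sum_add_tsum_nat_add 2]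
  have h3 : ∑' r : ℕ, cq (r + 2) * ((1.07 : ℝ) ^ (2 * (r + 2)) / 1.07) ≤
      cq 2 * ((1.07 : ℝ) ^ 4 / 1.07) * (100 / 99) := by
    refine (h1.tsum_le_tsum geo2 hg).trans (le_of_eq ?_)
    rw [tsum_mul_left, tsum_geometric_of_lt_one (by norm_num) (by norm_num)]
    norm_num
  rw [cq_two] at h3
  rw [sum_range_succ, sum_range_one, cq_one, cq_zero]
  have h4 := Q283.ND.c3_lt.1
  have h5 := Q283.ND.c3_lt.2
  norm_num at h3 ⊢
  linarith

/-- the product law: it is unlikely that the sum is at least half the number of the factors -/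
theorem chern (M : ℕ) : msJ {r : Fin M → ℕ | M ≤ 2 * ∑ k, r k} ≤ (0.998 : ℝ) ^ M := by
  obtain ⟨v, hv, hv1⟩ := pgf
  have h1 := Q283.T3B.hasSum_pi (M := M) (fun _ r => cq r * ((1.07 : ℝ) ^ (2 * r) / 1.07))
    (fun _ => v) (fun _ r => mul_nonneg (cq_ge r) (by positivity)) fun _ => hv
  rw [prod_const, card_univ, Fintype.card_fin] at h1
  have hv0 : 0 ≤ v := hv.nonneg fun r => mul_nonneg (cq_ge r) (by positivity)
  refine (hasSum_le (fun r => ?_) (msJ_hasSum {r : Fin M → ℕ | M ≤ 2 * ∑ k, r k}) h1).trans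
    (pow_le_pow_left₀ hv0 hv1 M)
  have hq : 0 ≤ ∏ k, cq (r k) := prod_nonneg fun k _ => cq_ge _
  have h3 : ∏ k, (cq (r k) * ((1.07 : ℝ) ^ (2 * r k) / 1.07)) =
      (∏ k, cq (r k)) * ((1.07 : ℝ) ^ (2 * ∑ k, r k) / 1.07 ^ M) := by
    rw [prod_mul_distrib, prod_div_distrib, prod_pow_eq_pow_sum, prod_const, card_univ,
      Fintype.card_fin, mul_sum]
  rw [h3]
  split_ifs with h
  · have h4 : (1.07 : ℝ) ^ M ≤ 1.07 ^ (2 * ∑ k, r k) := pow_le_pow_right₀ (by norm_num) h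
    have h5 : 1 ≤ (1.07 : ℝ) ^ (2 * ∑ k, r k) / 1.07 ^ M := by
      rw [one_le_div (by positivity)]
      exact h4
    exact le_mul_of_one_le_right hq h5
  · exact mul_nonneg hq (by positivity)

/-! ## independent tuples -/

theorem cf_cube {x c : ℕ} (_hx : x ≠ 0) (h : x = c ^ 3) : cf x = 1 := by
  unfold cf
  refine prod_eq_one fun p _ => ?_
  have h2 : fe x p = 0 := by rw [h, fe_cube]
  unfold fe at h2
  rw [ZMod.natCast_eq_zero_iff] at h2
  rw [Nat.mod_eq_zero_of_dvd h2, pow_zero]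

/-- a divisor of `D²` whose cube-free part is one -/
theorem div_one' {D x : ℕ} (hD : Squarefree D) (hx : x ∣ D ^ 2) (h : cf x = 1) : x = 1 := by
  have hx0 : x ≠ 0 := fun h0 => pow_ne_zero 2 hD.ne_zero (zero_dvd_iff.1 (h0 ▸ hx))
  have h1 := cf_mul hx0
  rw [h, one_mul] at h1
  obtain ⟨c, hc⟩ : ∃ c : ℕ, x = c ^ 3 := ⟨_, h1⟩
  by_contra hne
  have hc1 : c ≠ 1 := by
    rintro rfl
    exact hne (by rw [hc, one_pow])
  obtain ⟨p, hp, hpc⟩ := Nat.exists_prime_and_dvd hc1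
  have h2 : p ^ 3 ∣ D ^ 2 := (pow_dvd_pow_of_dvd hpc 3).trans (hc ▸ hx)
  have h3 : D.factorization p ≤ 1 := (Nat.squarefree_iff_factorization_le_one hD.ne_zero).1 hD p
  have h4 := (hp.pow_dvd_iff_le_factorization (pow_ne_zero 2 hD.ne_zero)).1 h2
  rw [Nat.factorization_pow, Finsupp.smul_apply, smul_eq_mul] at h4
  omega

/-- the tuples on which one form is a cube -/
theorem dep_le {n : ℕ} {D : ℕ} (hD : Dc D) {e : Fin n → ZMod 3} (he : e ≠ 0) :
    (((DkK (fun _ : Fin n => 1) D).filter fun d => ∃ c, fo e d = c ^ 3).card : ℝ) *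
      (Dk 1 D).card ≤ (DkK (fun _ : Fin n => 1) D).card := by
  have h1 := sum_fo hD one_ne_zero he (fun _ => 1) (fun x => if x = 1 then (1 : ℝ) else 0)
  have h2 : fo e (fun _ : Fin n => 1) % 9 = 1 := by
    unfold fo
    rw [prod_congr rfl fun i _ => one_pow (e i).val, prod_const_one]
    rfl
  rw [h2] at h1
  have h3 : ∑ d ∈ Dk 1 D, (if cf (1 * d) = 1 then (1 : ℝ) else 0) ≤ 1 := by
    rw [← sum_filter, sum_const, nsmul_eq_mul, mul_one]
    have h4 : (Dk 1 D).filter (fun d => cf (1 * d) = 1) ⊆ {1} := by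
      intro d hd
      rw [mem_filter, one_mul, mem_Dk hD.1] at hd
      rw [mem_singleton]
      exact div_one' hD.1 hd.1.1 hd.2
    have h5 := card_le_card h4
    rw [card_singleton] at h5
    exact_mod_cast h5
  have h4 : (((DkK (fun _ : Fin n => 1) D).filter fun d => ∃ c, fo e d = c ^ 3).card : ℝ) ≤
      ∑ d ∈ DkK (fun _ : Fin n => 1) D, (if cf (1 * fo e d) = 1 then (1 : ℝ) else 0) := by
    rw [← sum_filter, sum_const, nsmul_eq_mul, mul_one, Nat.cast_le]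
    refine card_le_card fun d hd => ?_
    rw [mem_filter] at hd ⊢
    refine ⟨hd.1, ?_⟩
    obtain ⟨c, hc⟩ := hd.2
    rw [one_mul]
    refine cf_cube (fo_ne fun i => ?_) hc
    have h6 := ((mem_Dk hD.1).1 (mem_DkK.1 hd.1 i)).1
    exact fun h0 => pow_ne_zero 2 hD.1.ne_zero (zero_dvd_iff.1 (h0 ▸ h6))
  have h0 : (0 : ℝ) ≤ (Dk 1 D).card := Nat.cast_nonneg _
  calc (((DkK (fun _ : Fin n => 1) D).filter fun d => ∃ c, fo e d = c ^ 3).card : ℝ) *
        (Dk 1 D).card ≤ (∑ d ∈ DkK (fun _ : Fin n => 1) D,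
          (if cf (1 * fo e d) = 1 then (1 : ℝ) else 0)) * (Dk 1 D).card :=
        mul_le_mul_of_nonneg_right h4 h0
    _ = (DkK (fun _ : Fin n => 1) D).card *
          ∑ d ∈ Dk 1 D, (if cf (1 * d) = 1 then (1 : ℝ) else 0) := h1
    _ ≤ (DkK (fun _ : Fin n => 1) D).card * 1 :=
        mul_le_mul_of_nonneg_left h3 (Nat.cast_nonneg _)
    _ = _ := mul_one _

/-- the independent tuples -/
noncomputable def Ik (n D : ℕ) : Finset (Fin n → ℕ) :=
  (DkK (fun _ : Fin n => 1) D).filter fun d => Q283.MC.Ind d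

/-- almost all tuples are independent -/
theorem ind_card {n : ℕ} {D : ℕ} (hD : Dc D) :
    (((DkK (fun _ : Fin n => 1) D).card : ℝ) - (Ik n D).card) * (Dk 1 D).card ≤
      3 ^ n * (DkK (fun _ : Fin n => 1) D).card := by
  have h1 : (DkK (fun _ : Fin n => 1) D).filter (fun d => ¬ Q283.MC.Ind d) ⊆
      (univ.filter fun e : Fin n → ZMod 3 => e ≠ 0).biUnion fun e =>
        (DkK (fun _ : Fin n => 1) D).filter fun d => ∃ c, fo e d = c ^ 3 := by
    intro d hd
    rw [mem_filter] at hd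
    obtain ⟨hd1, hd2⟩ := hd
    unfold Q283.MC.Ind at hd2
    push Not at hd2
    obtain ⟨e, he, c, hc⟩ := hd2
    rw [mem_biUnion]
    exact ⟨e, mem_filter.2 ⟨mem_univ e, he⟩, mem_filter.2 ⟨hd1, c, hc⟩⟩
  have h2 := (card_le_card h1).trans card_biUnion_le
  have h3 := card_filter_add_card_filter_not (s := DkK (fun _ : Fin n => 1) D)
    (fun d => Q283.MC.Ind d)
  have h4 : ((DkK (fun _ : Fin n => 1) D).card : ℝ) - (Ik n D).card =
      (((DkK (fun _ : Fin n => 1) D).filter fun d => ¬ Q283.MC.Ind d).card : ℝ) := by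
    have h5 : ((Ik n D).card : ℝ) + (((DkK (fun _ : Fin n => 1) D).filter fun d =>
        ¬ Q283.MC.Ind d).card : ℝ) = (DkK (fun _ : Fin n => 1) D).card := by exact_mod_cast h3
    linarith
  rw [h4]
  have h0 : (0 : ℝ) ≤ (Dk 1 D).card := Nat.cast_nonneg _
  have h6 : (((DkK (fun _ : Fin n => 1) D).filter fun d => ¬ Q283.MC.Ind d).card : ℝ) ≤
      ∑ e ∈ univ.filter fun e : Fin n → ZMod 3 => e ≠ 0,
        (((DkK (fun _ : Fin n => 1) D).filter fun d => ∃ c, fo e d = c ^ 3).card : ℝ) := by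
    exact_mod_cast h2
  refine (mul_le_mul_of_nonneg_right h6 h0).trans ?_
  rw [sum_mul]
  refine (sum_le_sum fun e he => dep_le hD (mem_filter.1 he).2).trans ?_
  rw [sum_const, nsmul_eq_mul]
  refine mul_le_mul_of_nonneg_right ?_ (Nat.cast_nonneg _)
  have h7 : (univ.filter fun e : Fin n → ZMod 3 => e ≠ 0).card ≤ 3 ^ n := by
    refine (card_filter_le _ _).trans ?_
    rw [card_univ, Fintype.card_fun, ZMod.card, Fintype.card_fin]
  exact_mod_cast h7

theorem cls_two : Cls 2 := by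
  refine ⟨⟨by norm_num, by norm_num, fun p hp h => ?_⟩, by norm_num, by norm_num, 2, Nat.prime_two,
    rfl, dvd_rfl, fun p hp h hne => absurd ((Nat.prime_dvd_prime_iff_eq hp Nat.prime_two).1 h) hne⟩
  have h1 := Nat.le_of_dvd (by norm_num) h
  have h2 : 2 ^ 3 ≤ p ^ 3 := Nat.pow_le_pow_left hp.two_le 3
  omega

/-- the number of the divisors tends to infinity along `S` -/
theorem card_large {S : ℕ → Prop}
    (hL : ∀ N : ℕ, Cls N → ∀ ε : ℝ, 0 < ε → ∀ᶠ D in atTop, S D → PL N ε (sp D)) (B : ℕ) :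
    ∀ᶠ D in atTop, S D → B < (Dk 1 (sp D)).card := by
  have h1 : Tendsto cq atTop (nhds 0) := sum_cq.summable.tendsto_atTop_zero
  obtain ⟨R, hR⟩ := (h1.eventually (gt_mem_nhds (show (0 : ℝ) < 1 / (2 * (B + 1)) by positivity))).exists
  have hR0 : 0 < cq R := by
    rw [Q283.Q3.cq_eq]
    have hp : ∀ i : ℕ, (0 : ℝ) < 3 ^ (i + 1) - 1 := fun i => by
      have : (3 : ℝ) ^ 1 ≤ 3 ^ (i + 1) := pow_le_pow_right₀ (by norm_num) (by omega)
      linarith
    refine div_pos (mul_pos ?_ (by positivity)) (prod_pos fun i _ => pow_pos (hp i) 2)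
    have := Q283.ND.c3_lt.2
    linarith
  filter_upwards [hL 2 cls_two (cq R / 2) (by positivity)] with D hD hS
  have h2 := (hD hS 1 (by norm_num) (by norm_num)).law {R}
  have hne : (Dk 1 (sp D)).Nonempty := Q283.ND.one_mem (Q283.NJ.sp_ac D)
  have hpos : (1 : ℝ) ≤ (Dk 1 (sp D)).card := by exact_mod_cast card_pos.2 hne
  have h3 : ms {R} = cq R := by
    have h4 := ms_hasSum {R}
    have h5 : HasSum (fun r : ℕ => if r = R then cq R else 0) (cq R) := hasSum_ite_eq R (cq R)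
    refine h4.unique (h5.congr_fun fun r => ?_)
    by_cases h : r = R
    · rw [if_pos h, if_pos (by rw [h]; rfl), h]
    · rw [if_neg h, if_neg (by exact h)]
  rw [h3] at h2
  have key : ∀ m a : ℕ, (1 : ℝ) ≤ a → |(m : ℝ) - cq R * a| ≤ cq R / 2 * a → B < a := by
    intro m a ha h
    have h4 := (abs_le.1 h).1
    have h5 := (abs_le.1 h).2
    have hm1 : 1 ≤ m := by
      by_contra h
      have h6 : m = 0 := by omega
      rw [h6, Nat.cast_zero] at h4
      have : 0 < cq R * a := mul_pos hR0 (by linarith)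
      linarith
    have hm2 : (1 : ℝ) ≤ m := by exact_mod_cast hm1
    have hR' := hR
    rw [lt_div_iff₀ (by positivity)] at hR'
    by_contra hcon
    push Not at hcon
    have h7 : (a : ℝ) ≤ B := by exact_mod_cast hcon
    nlinarith
  exact key _ _ hpos h2

end Q283.NR
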