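import Pool.Agent.Q283.NR.R6

/-! The law for the fields inside `D` -/

set_option autoImplicit false
set_option linter.unusedSectionVars false

open scoped Classical
open Finset Filter

namespace Q283.NR

open Q283.Q3N (fe fe_ne fe_mul fe_cube fe_pow fe_one)
open Q283.Q3 (cq cq_ge cq_zero sum_cq)
open Q283.Q3B (rr cq_succ cq_one cq_two ms ms_hasSum)
open Q283.NJ (msJ msJ_hasSum LwJ sp sp_ac sp_sqf PL)
open Q283.NK
open Pool.Agent.Y703.CT (Cls Base)
open Pool.Agent.Y703.CX (c3)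
open Q283.ND (Dc cf cf_mul cf_ne cf_free fe_cf Dk mem_Dk Lw mu mu_lt)
open Q155.NL (Alm)

/-- from all the tuples to almost all the tuples -/
theorem trans_ind {E : Type} {A I : Finset E} (hI : I ⊆ A) {δ ε₁ μ : ℝ}
    (h : (A.card : ℝ) - I.card ≤ δ * A.card) (hδ : δ ≤ 1 / 2) (hμ0 : 0 ≤ μ)
    (hμ1 : μ ≤ 1) (P : E → Prop)
    (hP : |((A.filter P).card : ℝ) - μ * A.card| ≤ ε₁ * A.card) :
    |((I.filter P).card : ℝ) - μ * I.card| ≤ 2 * (ε₁ + δ) * I.card := by
  have hle : (I.card : ℝ) ≤ A.card := by exact_mod_cast card_le_card hI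
  have h0 : (0 : ℝ) ≤ I.card := Nat.cast_nonneg _
  have hε0 : 0 ≤ ε₁ * A.card := (abs_nonneg _).trans hP
  have hδ0 : 0 ≤ δ * A.card := by linarith
  have h1 : ((I.filter P).card : ℝ) ≤ (A.filter P).card := by
    exact_mod_cast card_le_card (filter_subset_filter P hI)
  have h2 : ((A.filter P).card : ℝ) ≤ (I.filter P).card + (A.card - I.card) := by
    have h3 : A.filter P ⊆ (I.filter P) ∪ (A \ I) := by
      intro x hx
      rw [mem_filter] at hx
      rw [mem_union, mem_filter, Finset.mem_sdiff]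
      by_cases hxI : x ∈ I
      · exact Or.inl ⟨hxI, hx.2⟩
      · exact Or.inr ⟨hx.1, hxI⟩
    have h4 := (card_le_card h3).trans (card_union_le _ _)
    rw [card_sdiff_of_subset hI] at h4
    have h5 : I.card ≤ A.card := card_le_card hI
    have h6 : (((A.filter P).card : ℕ) : ℝ) ≤ ((I.filter P).card + (A.card - I.card) : ℕ) := by
      exact_mod_cast h4
    push_cast [Nat.cast_sub h5] at h6
    exact h6
  have h3 := abs_le.1 hP
  have h4 : (A.card : ℝ) ≤ 2 * I.card := by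
    have : δ * A.card ≤ 1 / 2 * A.card := mul_le_mul_of_nonneg_right hδ (Nat.cast_nonneg _)
    linarith
  have h5 : (ε₁ + δ) * A.card ≤ 2 * (ε₁ + δ) * I.card := by
    rcases lt_or_ge (ε₁ + δ) 0 with hneg | hnn
    · have : (0 : ℝ) ≤ (ε₁ + δ) * A.card := by
        have e : (ε₁ + δ) * A.card = ε₁ * A.card + δ * A.card := by ring
        rw [e]
        linarith
      have hA : (A.card : ℝ) = 0 := by
        by_contra hne
        have hpos : (0 : ℝ) < A.card := lt_of_le_of_ne (Nat.cast_nonneg _) (Ne.symm hne)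
        have := mul_neg_of_neg_of_pos hneg hpos
        linarith
      have hI0 : (I.card : ℝ) = 0 := le_antisymm (hle.trans_eq hA) h0
      rw [hA, hI0]
      simp
    · calc (ε₁ + δ) * A.card ≤ (ε₁ + δ) * (2 * I.card) := mul_le_mul_of_nonneg_left h4 hnn
        _ = _ := by ring
  have h6 : μ * (A.card - I.card) ≤ 1 * (A.card - I.card) :=
    mul_le_mul_of_nonneg_right hμ1 (by linarith)
  have h7 : 0 ≤ μ * (A.card - I.card) := mul_nonneg hμ0 (by linarith)
  rw [abs_le]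
  constructor
  · have e : (ε₁ + δ) * A.card = ε₁ * A.card + δ * A.card := by ring
    nlinarith [h3.1]
  · have e : (ε₁ + δ) * A.card = ε₁ * A.card + δ * A.card := by ring
    nlinarith [h3.2]

theorem abs_swap {a b : ℕ} (h : a = b) {c e : ℝ} (hb : |(b : ℝ) - c| ≤ e) : |(a : ℝ) - c| ≤ e := by
  rw [h]
  exact hb

/-- the pairs of a base and a nonzero vector of exponents -/
abbrev Pr (M n : ℕ) : Type := {p : Fin M × (Fin n → ZMod 3) // p.2 ≠ 0}

theorem card_ne (n : ℕ) : (univ.filter fun e : Fin n → ZMod 3 => e ≠ 0).card = 3 ^ n - 1 := by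
  have h := card_filter_add_card_filter_not (s := (univ : Finset (Fin n → ZMod 3)))
    (fun e => e ≠ 0)
  have h1 : (univ.filter fun e : Fin n → ZMod 3 => ¬ e ≠ 0).card = 1 := by
    have : (univ.filter fun e : Fin n → ZMod 3 => ¬ e ≠ 0) = {0} := by
      ext e
      simp
    rw [this, card_singleton]
  rw [h1, card_univ, Fintype.card_fun, ZMod.card, Fintype.card_fin] at h
  omega

theorem card_Pr (M n : ℕ) : Fintype.card (Pr M n) = M * (3 ^ n - 1) := by
  rw [Fintype.card_subtype]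
  have h1 : (univ.filter fun p : Fin M × (Fin n → ZMod 3) => p.2 ≠ 0) =
      univ ×ˢ (univ.filter fun e : Fin n → ZMod 3 => e ≠ 0) := by
    ext p
    simp
  rw [h1, card_product, card_ne, card_univ, Fintype.card_fin]

/-- the sum over the nonzero vectors -/
noncomputable def Gs {n : ℕ} (N : ℕ) (d : Fin n → ℕ) : ℕ :=
  ∑ e ∈ univ.filter fun e : Fin n → ZMod 3 => e ≠ 0, rr (cf (N * fo e d))

section
variable {M n : ℕ} {N : Fin M → ℕ}

/-- the bases and the exponents, enumerated -/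
noncomputable def eqv (M n : ℕ) : Pr M n ≃ Fin (M * (3 ^ n - 1)) :=
  Fintype.equivFinOfCardEq (card_Pr M n)

noncomputable def NN (N : Fin M → ℕ) (i : Fin (M * (3 ^ n - 1))) : ℕ := N ((eqv M n).symm i).1.1

noncomputable def aa (M n : ℕ) (i : Fin (M * (3 ^ n - 1))) : Fin n → ZMod 3 :=
  ((eqv M n).symm i).1.2

theorem ind_all (hC : ∀ j, Cls (N j)) (hN : ∀ j l, j ≠ l → N j ≠ N l ∧ ¬ ∃ b : ℕ, N j * N l = b ^ 3) :
    Ind (NN (n := n) N) (aa M n) := by
  refine ind_of (fun i => hC _) (fun i => ((eqv M n).symm i).2) fun i l hil => ⟨?_, ?_⟩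
  · rintro ⟨h1, h2⟩
    apply hil
    have h3 : ((eqv M n).symm l).1.1 = ((eqv M n).symm i).1.1 := by
      by_contra h
      exact (hN _ _ h).1 h2
    exact (eqv M n).symm.injective (Subtype.ext (Prod.ext h3.symm h1.symm))
  · rintro ⟨h1, b, hb⟩
    by_cases h : ((eqv M n).symm i).1.1 = ((eqv M n).symm l).1.1
    · have h2 : NN (n := n) N l = NN N i := by
        unfold NN
        rw [h]
      rw [h2] at hb
      -- the base would be a cube
      have hC' := hC ((eqv M n).symm i).1.1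
      have hx : NN (n := n) N i ≠ 0 := hC'.1.1
      have h3 : ∀ p, fe (NN (n := n) N i) p = 0 := by
        intro p
        have h4 : fe (NN (n := n) N i * NN N i) p = 0 := by rw [hb, fe_cube]
        rw [fe_mul hx hx] at h4
        have key : ∀ x : ZMod 3, x + x = 0 → x = 0 := by decide
        exact key _ h4
      obtain ⟨c, hc⟩ := cube_of_fe hx h3
      have h5 : NN (n := n) N i = 1 := by
        by_contra hne
        have hc1 : c ≠ 1 := by
          rintro rfl
          exact hne (by rw [hc, one_pow])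
        obtain ⟨p, hp, hpc⟩ := Nat.exists_prime_and_dvd hc1
        exact hC'.1.2.2 p hp ((pow_dvd_pow_of_dvd hpc 3).trans (dvd_of_eq hc.symm))
      apply hC'.2.1
      show NN (n := n) N i % 9 = 1
      rw [h5]
    · exact (hN _ _ h).2 ⟨b, hb⟩

end

/-- **The main theorem for the fields.** -/
theorem mainR : ∃ S : ℕ → Prop, Alm (fun _ => True) S ∧ Alm Dc S ∧
    (∀ (M n : ℕ) (N : Fin M → ℕ), (∀ j, Cls (N j)) →
      (∀ j l, j ≠ l → N j ≠ N l ∧ ¬ ∃ b : ℕ, N j * N l = b ^ 3) →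
      ∀ ε : ℝ, 0 < ε → ∀ᶠ D in atTop, S D →
        (1 - ε) * (DkK (fun _ : Fin n => 1) (sp D)).card ≤ (Ik n (sp D)).card ∧
        (Ik n (sp D)).Nonempty ∧
        |(((Ik n (sp D)).filter fun d => ∀ j, ∀ e : Fin n → ZMod 3, e ≠ 0 →
          rr (cf (N j * fo e d)) = 0).card : ℝ) - c3 ^ (M * (3 ^ n - 1)) * (Ik n (sp D)).card| ≤
            ε * (Ik n (sp D)).card) ∧
    (∀ (n N : ℕ), Cls N → ∀ ε : ℝ, 0 < ε → ∀ᶠ D in atTop, S D →
        (((Ik n (sp D)).filter fun d => 3 ^ n - 1 ≤ 2 * Gs N d).card : ℝ) ≤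
          ((0.998 : ℝ) ^ (3 ^ n - 1) + ε) * (Ik n (sp D)).card ∧
        ∑ d ∈ Ik n (sp D), (Gs N d : ℝ) ≤ (0.46 * (3 ^ n - 1 : ℕ)) * (Ik n (sp D)).card) ∧
    (∀ N : ℕ, Cls N → ∀ ε : ℝ, 0 < ε → ∀ᶠ D in atTop, S D → PL N ε (sp D)) := by
  obtain ⟨S, hS1, hS2, hJ, hL⟩ := mainKC
  -- the share of the independent tuples
  have hI : ∀ n : ℕ, ∀ δ : ℝ, 0 < δ → ∀ᶠ D in atTop, S D →
      ((DkK (fun _ : Fin n => 1) (sp D)).card : ℝ) - (Ik n (sp D)).card ≤
        δ * (DkK (fun _ : Fin n => 1) (sp D)).card := by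
    intro n δ hδ
    obtain ⟨B, hB⟩ := exists_nat_gt (3 ^ n / δ)
    filter_upwards [card_large hL B] with D hD hS
    have h1 := hD hS
    have h2 := ind_card (n := n) (sp_ac D)
    have h3 : (3 : ℝ) ^ n < B * δ := by
      rwa [div_lt_iff₀ hδ] at hB
    have h4 : (B : ℝ) < (Dk 1 (sp D)).card := by exact_mod_cast h1
    have h5 : (3 : ℝ) ^ n ≤ (Dk 1 (sp D)).card * δ := by nlinarith
    have hpos : (0 : ℝ) < (Dk 1 (sp D)).card := lt_of_le_of_lt (Nat.cast_nonneg _) h4
    have h6 : (((DkK (fun _ : Fin n => 1) (sp D)).card : ℝ) - (Ik n (sp D)).card) *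
        (Dk 1 (sp D)).card ≤ (δ * (DkK (fun _ : Fin n => 1) (sp D)).card) * (Dk 1 (sp D)).card := by
      refine h2.trans ?_
      calc (3 : ℝ) ^ n * (DkK (fun _ : Fin n => 1) (sp D)).card ≤
          ((Dk 1 (sp D)).card * δ) * (DkK (fun _ : Fin n => 1) (sp D)).card :=
            mul_le_mul_of_nonneg_right h5 (Nat.cast_nonneg _)
        _ = _ := by ring
    exact le_of_mul_le_mul_right h6 hpos
  have hone : ∀ D n, (DkK (fun _ : Fin n => 1) (sp D)).Nonempty := by
    intro D n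
    obtain ⟨x, hx⟩ := Q283.ND.one_mem (sp_ac D)
    exact ⟨fun _ => x, mem_DkK.2 fun _ => hx⟩
  have hfo1 : ∀ {n : ℕ} (e : Fin n → ZMod 3), fo e (fun _ : Fin n => 1) = 1 := by
    intro n e
    unfold fo
    rw [prod_congr rfl fun i _ => one_pow (e i).val, prod_const_one]
  have hsub : ∀ n D, Ik n D ⊆ DkK (fun _ : Fin n => 1) D := fun n D => filter_subset _ _
  refine ⟨S, hS1, hS2, fun M n N hC hN ε hε => ?_, fun n N hC ε hε => ?_, hL⟩
  · obtain ⟨δ, hδ⟩ : ∃ δ : ℝ, δ = min (ε / 4) (1 / 4) := ⟨_, rfl⟩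
    have hδ0 : 0 < δ := by rw [hδ]; exact lt_min (by positivity) (by norm_num)
    have hδ1 : δ ≤ ε / 4 := by rw [hδ]; exact min_le_left _ _
    have hδ2 : δ ≤ 1 / 4 := by rw [hδ]; exact min_le_right _ _
    filter_upwards [hI n δ hδ0, hJ (M * (3 ^ n - 1)) n (NN (n := n) N) (aa M n) (fun i => hC _)
      (ind_all hC hN) δ hδ0] with D h1 h2 hS
    have h1 := h1 hS
    have hA := hone D n
    have hA0 : (0 : ℝ) < (DkK (fun _ : Fin n => 1) (sp D)).card := by exact_mod_cast card_pos.2 hA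
    have h3 := h2 hS (fun _ => 1) (fun i => by rw [hfo1, mul_one]; exact (hC _).2.1)
      (fun i => by rw [hfo1, mul_one]; exact (hC _).2.2.1) {r | ∀ k, (r k = 0 ↔ k ∈ univ)}
    have h4 := Q283.Q3A.meas_A (M := M * (3 ^ n - 1)) univ
    rw [cq_zero, card_univ, Fintype.card_fin, Nat.sub_self, pow_zero, mul_one] at h4
    have h5 : msJ {r : Fin (M * (3 ^ n - 1)) → ℕ | ∀ k, (r k = 0 ↔ k ∈ univ)} =
        c3 ^ (M * (3 ^ n - 1)) := h4
    rw [h5] at h3
    have hc0 : (0 : ℝ) ≤ c3 := by have := Q283.ND.c3_lt.2; linarith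
    have hc1 : c3 ≤ 1 := by have := Q283.ND.c3_lt.1; linarith
    have h6 := trans_ind (hsub n (sp D)) h1 (by linarith) (pow_nonneg hc0 _) (pow_le_one₀ hc0 hc1)
      (fun d => (fun i => rr (cf (NN (n := n) N i * fo (aa M n i) d))) ∈
        {r : Fin (M * (3 ^ n - 1)) → ℕ | ∀ k, (r k = 0 ↔ k ∈ univ)}) (by convert h3)
    refine ⟨?_, ?_, ?_⟩
    · nlinarith
    · rw [← card_pos]
      have : (0 : ℝ) < (Ik n (sp D)).card := by nlinarith
      exact_mod_cast this
    · have h7 : ((Ik n (sp D)).filter fun d => ∀ j, ∀ e : Fin n → ZMod 3, e ≠ 0 →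
          rr (cf (N j * fo e d)) = 0).card = ((Ik n (sp D)).filter fun d =>
            (fun i => rr (cf (NN (n := n) N i * fo (aa M n i) d))) ∈
        {r : Fin (M * (3 ^ n - 1)) → ℕ | ∀ k, (r k = 0 ↔ k ∈ univ)}).card := by
        refine Pool.Agent.XLK.fcc fun d _ => ?_
        rw [Set.mem_ofPred_eq]
        constructor
        · intro h k
          exact ⟨fun _ => mem_univ _, fun _ => h _ _ ((eqv M n).symm k).2⟩
        · intro h j e he
          have h8 := (h (eqv M n ⟨(j, e), he⟩)).2 (mem_univ _)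
          unfold NN aa at h8
          beta_reduce at h8
          rw [Equiv.symm_apply_apply] at h8
          exact h8
      have h8 := h6.trans (mul_le_mul_of_nonneg_right (by linarith : 2 * (δ + δ) ≤ ε)
        (Nat.cast_nonneg _))
      exact abs_swap (h7.trans (Pool.Agent.XLK.fcc fun _ _ => Iff.rfl)) h8
  · have hmu := mu_lt
    have hmu0 : 0 ≤ mu := tsum_nonneg fun r => mul_nonneg (Nat.cast_nonneg _) (cq_ge _)
    obtain ⟨δ, hδ⟩ : ∃ δ : ℝ, δ = min (ε / 4) (min (1 / 4) ((0.46 - mu) / 8)) := ⟨_, rfl⟩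
    have hδ0 : 0 < δ := by
      rw [hδ]
      exact lt_min (by positivity) (lt_min (by norm_num) (by linarith))
    have hδ1 : δ ≤ ε / 4 := by rw [hδ]; exact min_le_left _ _
    have hδ2 : δ ≤ 1 / 4 := by rw [hδ]; exact (min_le_right _ _).trans (min_le_left _ _)
    have hδ3 : δ ≤ (0.46 - mu) / 8 := by rw [hδ]; exact (min_le_right _ _).trans (min_le_right _ _)
    have hC1 : ∀ j : Fin 1, Cls ((fun _ : Fin 1 => N) j) := fun _ => hC
    have hN1 : ∀ j l : Fin 1, j ≠ l → (fun _ : Fin 1 => N) j ≠ (fun _ : Fin 1 => N) l ∧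
        ¬ ∃ b : ℕ, (fun _ : Fin 1 => N) j * (fun _ : Fin 1 => N) l = b ^ 3 :=
      fun j l h => absurd (Subsingleton.elim j l) h
    filter_upwards [hI n δ hδ0, hJ (1 * (3 ^ n - 1)) n (NN (n := n) (fun _ : Fin 1 => N)) (aa 1 n)
      (fun i => hC) (ind_all hC1 hN1) δ hδ0, hL N hC δ hδ0] with D h1 h2 h3 hS
    have h1 := h1 hS
    have hA := hone D n
    have hA0 : (0 : ℝ) < (DkK (fun _ : Fin n => 1) (sp D)).card := by exact_mod_cast card_pos.2 hA
    have hI0 : (0 : ℝ) ≤ (Ik n (sp D)).card := Nat.cast_nonneg _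
    have hle : (Ik n (sp D)).card ≤ (DkK (fun _ : Fin n => 1) (sp D)).card := card_le_card (hsub n _)
    constructor
    · have h4 := h2 hS (fun _ => 1) (fun i => by rw [hfo1, mul_one]; exact hC.2.1)
        (fun i => by rw [hfo1, mul_one]; exact hC.2.2.1)
        {r | 1 * (3 ^ n - 1) ≤ 2 * ∑ k, r k}
      have hms0 : 0 ≤ msJ {r : Fin (1 * (3 ^ n - 1)) → ℕ | 1 * (3 ^ n - 1) ≤ 2 * ∑ k, r k} :=
        (msJ_hasSum _).nonneg fun r => by
          split_ifs
          · exact prod_nonneg fun k _ => cq_ge _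
          · exact le_rfl
      have hms1 : msJ {r : Fin (1 * (3 ^ n - 1)) → ℕ | 1 * (3 ^ n - 1) ≤ 2 * ∑ k, r k} ≤
          (0.998 : ℝ) ^ (3 ^ n - 1) := by
        have h5 := chern (1 * (3 ^ n - 1))
        have h6 : (0.998 : ℝ) ^ (1 * (3 ^ n - 1)) = (0.998 : ℝ) ^ (3 ^ n - 1) := by rw [one_mul]
        rw [h6] at h5
        exact h5
      have h6 := trans_ind (hsub n (sp D)) h1 (by linarith) hms0
        (hms1.trans (pow_le_one₀ (by norm_num) (by norm_num)))
        (fun d => (fun i => rr (cf (NN (n := n) (fun _ : Fin 1 => N) i * fo (aa 1 n i) d))) ∈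
          {r : Fin (1 * (3 ^ n - 1)) → ℕ | 1 * (3 ^ n - 1) ≤ 2 * ∑ k, r k}) (by convert h4)
      have h7 : ((Ik n (sp D)).filter fun d => 3 ^ n - 1 ≤ 2 * Gs N d).card =
          ((Ik n (sp D)).filter fun d =>
            (fun i => rr (cf (NN (n := n) (fun _ : Fin 1 => N) i * fo (aa 1 n i) d))) ∈
          {r : Fin (1 * (3 ^ n - 1)) → ℕ | 1 * (3 ^ n - 1) ≤ 2 * ∑ k, r k}).card := by
        refine Pool.Agent.XLK.fcc fun d _ => ?_
        rw [Set.mem_ofPred_eq]
        have h8 : ∑ k, rr (cf (NN (n := n) (fun _ : Fin 1 => N) k * fo (aa 1 n k) d)) = Gs N d := by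
          have h9 : ∑ k, rr (cf (NN (n := n) (fun _ : Fin 1 => N) k * fo (aa 1 n k) d)) =
              ∑ p : Pr 1 n, rr (cf (N * fo p.1.2 d)) :=
            ((eqv 1 n).symm.sum_comp fun p : Pr 1 n => rr (cf (N * fo p.1.2 d)))
          rw [h9]
          unfold Gs
          refine sum_bij (fun p _ => p.1.2) (fun p _ => mem_filter.2 ⟨mem_univ _, p.2⟩) ?_ ?_ ?_
          · intro p _ q _ h
            exact Subtype.ext (Prod.ext (Subsingleton.elim _ _) h)
          · intro e he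
            exact ⟨⟨(0, e), (mem_filter.1 he).2⟩, mem_univ _, rfl⟩
          · intro p _
            rfl
        rw [h8, one_mul]
      have h6' : |(((Ik n (sp D)).filter fun d => 3 ^ n - 1 ≤ 2 * Gs N d).card : ℝ) -
          msJ {r : Fin (1 * (3 ^ n - 1)) → ℕ | 1 * (3 ^ n - 1) ≤ 2 * ∑ k, r k} *
            (Ik n (sp D)).card| ≤ 2 * (δ + δ) * (Ik n (sp D)).card :=
        abs_swap (h7.trans (Pool.Agent.XLK.fcc fun _ _ => Iff.rfl)) h6
      have h8 := (abs_le.1 h6').2
      have h9 : msJ {r : Fin (1 * (3 ^ n - 1)) → ℕ | 1 * (3 ^ n - 1) ≤ 2 * ∑ k, r k} *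
          (Ik n (sp D)).card ≤ (0.998 : ℝ) ^ (3 ^ n - 1) * (Ik n (sp D)).card :=
        mul_le_mul_of_nonneg_right hms1 hI0
      have h10 : 2 * (δ + δ) * ((Ik n (sp D)).card : ℝ) ≤ ε * (Ik n (sp D)).card :=
        mul_le_mul_of_nonneg_right (by linarith) hI0
      linarith
    · have h4 : ∀ e : Fin n → ZMod 3, e ≠ 0 →
          ∑ d ∈ DkK (fun _ : Fin n => 1) (sp D), (rr (cf (N * fo e d)) : ℝ) ≤
            (mu + δ) * (DkK (fun _ : Fin n => 1) (sp D)).card := by
        intro e he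
        have h5 := mean_fo (sp_ac D) hC.1.1 he hA (fun x => (rr x : ℝ))
        have h6 : fo e (fun _ : Fin n => 1) % 9 = 1 := by rw [hfo1]
        rw [h6] at h5
        have h7 := (h3 hS 1 (by rw [mul_one]; exact hC.2.1) (by rw [mul_one]; exact hC.2.2.1)).mean
        have h8 := (abs_le.1 h7).2
        have hpos1 : (0 : ℝ) < (Dk 1 (sp D)).card := by
          exact_mod_cast card_pos.2 (Q283.ND.one_mem (sp_ac D))
        rw [div_eq_iff hA0.ne'] at h5
        rw [h5]
        refine mul_le_mul_of_nonneg_right ?_ hA0.le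
        rw [div_le_iff₀ hpos1]
        linarith
      have h5 : ∑ d ∈ Ik n (sp D), (Gs N d : ℝ) ≤
          ∑ d ∈ DkK (fun _ : Fin n => 1) (sp D), (Gs N d : ℝ) :=
        sum_le_sum_of_subset_of_nonneg (hsub n _) fun _ _ _ => Nat.cast_nonneg _
      have h6 : ∑ d ∈ DkK (fun _ : Fin n => 1) (sp D), (Gs N d : ℝ) ≤
          (3 ^ n - 1 : ℕ) * ((mu + δ) * (DkK (fun _ : Fin n => 1) (sp D)).card) := by
        unfold Gs
        push_cast
        rw [sum_comm]
        refine (sum_le_sum fun e he => h4 e (mem_filter.1 he).2).trans ?_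
        rw [sum_const, nsmul_eq_mul, card_ne]
      refine (h5.trans h6).trans ?_
      have h7 : (mu + δ) * (DkK (fun _ : Fin n => 1) (sp D)).card ≤
          0.46 * ((Ik n (sp D)).card : ℝ) := by
        have h8 : (DkK (fun _ : Fin n => 1) (sp D)).card * (1 - δ) ≤ ((Ik n (sp D)).card : ℝ) := by
          linarith
        have h9 : (mu + δ) ≤ 0.46 * (1 - δ) := by linarith
        calc (mu + δ) * (DkK (fun _ : Fin n => 1) (sp D)).card ≤
            (0.46 * (1 - δ)) * (DkK (fun _ : Fin n => 1) (sp D)).card :=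
              mul_le_mul_of_nonneg_right h9 hA0.le
          _ = 0.46 * ((DkK (fun _ : Fin n => 1) (sp D)).card * (1 - δ)) := by ring
          _ ≤ 0.46 * ((Ik n (sp D)).card : ℝ) := mul_le_mul_of_nonneg_left h8 (by norm_num)
      calc ((3 ^ n - 1 : ℕ) : ℝ) * ((mu + δ) * (DkK (fun _ : Fin n => 1) (sp D)).card) ≤
          ((3 ^ n - 1 : ℕ) : ℝ) * (0.46 * ((Ik n (sp D)).card : ℝ)) :=
            mul_le_mul_of_nonneg_left h7 (Nat.cast_nonneg _)
        _ = _ := by ring

end Q283.NR
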