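import Pool.Agent.Q283.NR.R5
import Pool.Agent.Q283.NR.R7
import Pool.Agent.Q283.Q3.Fld2

/-! The fields inside `D`: ranks and orders do not grow -/

set_option autoImplicit false
set_option linter.unusedSectionVars false
set_option linter.unusedVariables false

open scoped Classical

namespace Q283.NR

open Module
open Q283.Q3N (cf_unique triv_iff)
open Q283.Q3B (rr)
open Q283.NJ (sp sp_ac sp_sqf)
open Q283.NK (DkK mem_DkK fo fo_ne)
open Pool.Agent.Y703.CT (Cls Base Triv3 NoSplit WD IsL EQ fin_all)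
open Pool.Agent.Y692.CT (PD)
open Q283.ND (Dc cf cf_mul cf_ne cf_free fe_cf Dk mem_Dk)
open Q283.MC (Ind MM eF RankZero tw Rd rd_of tf conc)
open Q283.MS (Kl)

theorem fo_mod {n D : ℕ} {d : Fin n → ℕ} (hd : ∀ i, d i ∈ Dk 1 (sp D)) (e : Fin n → ZMod 3) (N : ℕ) :
    N * fo e d % 9 = N % 9 := by
  have h1 : ∀ i, d i % 9 = 1 := fun i => ((mem_Dk (sp_sqf D)).1 (hd i)).2
  have h2 : Nat.ModEq 9 (fo e d) 1 := by
    unfold fo
    rw [← ZMod.natCast_eq_natCast_iff]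
    push_cast
    refine Finset.prod_eq_one fun i _ => ?_
    rw [← ZMod.natCast_mod, h1 i, Nat.cast_one, one_pow]
  have h3 : Nat.ModEq 9 (N * fo e d) (N * 1) := (Nat.ModEq.refl N).mul h2
  rw [mul_one] at h3
  exact h3

theorem cls_fo {n N D : ℕ} {e : Fin n → ZMod 3} {d : Fin n → ℕ} (hN : Cls N)
    (hd : ∀ i, d i ∈ Dk 1 (sp D)) : Cls (cf (N * fo e d)) ∧ N * fo e d ≠ 0 := by
  have h0 : sp D ≠ 0 := (sp_sqf D).ne_zero
  have hdd : ∀ i, d i ∣ sp D ^ 2 := fun i => ((mem_Dk (sp_sqf D)).1 (hd i)).1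
  have hd0 : ∀ i, d i ≠ 0 := fun i h => pow_ne_zero 2 h0 (zero_dvd_iff.1 (h ▸ hdd i))
  have hf0 : fo e d ≠ 0 := fo_ne hd0
  have hp : ∀ p : ℕ, p.Prime → p ∣ fo e d → p % 3 = 1 := by
    intro p hp hpd
    obtain ⟨i, -, hi⟩ := (hp.prime.dvd_finsetProd_iff _).1 hpd
    exact (sp_ac D).2 p hp (hp.dvd_of_dvd_pow ((hp.dvd_of_dvd_pow hi).trans (hdd i)))
  obtain ⟨M, c, g1, g2, g3, -⟩ := Q283.MC.cf_bs (N := N) (R := fo e d) ⟨hN.1, hN.2.2.2⟩ hf0 hp
  have hn : N * fo e d ≠ 0 := mul_ne_zero hN.1.1 hf0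
  have h2 : M = cf (N * fo e d) := cf_unique (g1.symm.trans (cf_mul hn)) (by rw [← g1]; exact hn)
    g2.1.2.2 (cf_free _)
  refine ⟨?_, hn⟩
  rw [← h2]
  refine ⟨g2.1, ?_, ?_, g2.2⟩
  · rw [g3, fo_mod hd]
    exact hN.2.1
  · rw [g3, fo_mod hd]
    exact hN.2.2.1

/-- a number that is cube-free is its cube-free part -/
theorem cf_self {N : ℕ} (hN : Base N) : cf N = N := by
  have h1 := cf_mul hN.1
  have h3 : N * 1 ^ 3 = N := by rw [one_pow, mul_one]
  have h2 : N = cf N := cf_unique (h3.trans h1) (by rw [h3]; exact hN.1) hN.2.2 (cf_free _)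
  exact h2.symm

theorem fo_zero {n : ℕ} (d : Fin n → ℕ) : fo 0 d = 1 := by
  unfold fo
  exact Finset.prod_eq_one fun i _ => by rw [Pi.zero_apply, ZMod.val_zero, pow_zero]

theorem rk_fin {G : Type} [AddCommGroup G] [Finite G] : rk G = 0 := by
  unfold rk
  rw [rank_eq_zero_iff]
  intro x
  refine ⟨(Nat.card G : ℤ), ?_, ?_⟩
  · have : 0 < Nat.card G := Nat.card_pos
    exact_mod_cast this.ne'
  · rw [natCast_zsmul]
    exact card_nsmul_eq_zero'

theorem rQ_zero {D : ℕ} (h : Finite (EQ (WD ((D : ℕ) : ℤ))).toAffine.Point) : rQ D = 0 := by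
  have h' : Finite (PD D ℚ) := h
  have key : ∀ (F : Type) [Field F] [Algebra ℚ F], Finite (PD D F) → rF D F = 0 := by
    intro F _ _ h1
    unfold rF
    exact rk_fin (G := PD D F)
  exact key ℚ h'

section
variable {n N D : ℕ} {d : Fin n → ℕ}

theorem mem_Ik : d ∈ Ik n (sp D) ↔ (∀ i, d i ∈ Dk 1 (sp D)) ∧ Ind d := by
  unfold Ik
  rw [Finset.mem_filter, mem_DkK]

theorem rr_triv (hC : Cls N) : rr N = 0 ↔ Triv3 N := by
  have : IsCyclotomicExtension {3} ℚ (CyclotomicField 3 ℚ) :=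
    CyclotomicField.isCyclotomicExtension 3 ℚ
  obtain ⟨⟨j, -⟩, -⟩ := Pool.Agent.Y455.CTK.jex (CyclotomicField 3 ℚ)
  exact (Q283.Q3B.sel_N (CyclotomicField 3 ℚ) j hC).2.2

/-- **The general formula for the rank and for the order over the fields inside `D`.** -/
theorem field_gen (hN : Cls N) (hd : d ∈ Ik n (sp D)) {F : Type} [Field F] [NumberField F]
    {t : Fin n → F} (hcube : ∀ j, t j ^ 3 = (d j : F))
    (hgen : IntermediateField.adjoin ℚ ({x : F | x ^ 3 = 1} ∪ Set.range t) = ⊤)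
    {f : (Fin n → ZMod 3) → ℂ → ℂ} (hf : ∀ e, IsL (WD ((cf (N * fo e d) : ℕ) : ℤ)) (f e)) :
    ∃ r : ℕ, (r = 1 ∨ r = 2) ∧ finrank ℚ F = r * 3 ^ n ∧
      Cardinal.toNat (rF N F) = r * ∑ e : Fin n → ZMod 3, Cardinal.toNat (rQ (cf (N * fo e d))) ∧
      ∃ L : ℂ → ℂ, Differentiable ℂ L ∧
        (∀ s : ℂ, 3 / 2 < s.re → HasProd (eF (F := F) (MM N d) N s) (L s)) ∧
        analyticOrderAt L 1 = r * ∑ e, analyticOrderAt (f e) 1 := by
  obtain ⟨hd1, hd2⟩ := mem_Ik.1 hd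
  obtain ⟨r, hr, hdeg, hrk⟩ := field_rank hcube hgen hd2 hN.1.1
  have hRd : Rd r F d t := ⟨hcube, hgen, hdeg⟩
  have hDc : ∀ e, tw N d e = cf (N * fo e d) *
      (∏ p ∈ (N * fo e d).primeFactors, p ^ ((N * fo e d).factorization p / 3)) ^ 3 := fun e =>
    cf_mul (cls_fo (e := e) hN hd1).2
  obtain ⟨L, h1, h2, h3⟩ := glo_ord hRd hN.1.1 hd2.ne_zero hDc hf
  refine ⟨r, hr, hdeg, ?_, L, h1, h2, h3⟩
  rw [hrk]
  congr 1
  refine Finset.sum_congr rfl fun e _ => ?_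
  have hn := (cls_fo (e := e) hN hd1).2
  have h4 : N * ∏ j, d j ^ (e j).val = cf (N * fo e d) *
      (∏ p ∈ (N * fo e d).primeFactors, p ^ ((N * fo e d).factorization p / 3)) ^ 3 := cf_mul hn
  rw [h4, rQ_scale (cf_ne hn)]
  intro h0
  have h5 := cf_mul hn
  rw [h0, zero_pow (by norm_num), mul_zero] at h5
  exact hn h5

/-- **No growth.** -/
theorem stable (hN : Cls N) (hd : d ∈ Ik n (sp D))
    (hG : ∀ e : Fin n → ZMod 3, e ≠ 0 → rr (cf (N * fo e d)) = 0)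
    {F : Type} [Field F] [NumberField F] {t : Fin n → F} (hcube : ∀ j, t j ^ 3 = (d j : F))
    (hgen : IntermediateField.adjoin ℚ ({x : F | x ^ 3 = 1} ∪ Set.range t) = ⊤) :
    ∃ r : ℕ, (r = 1 ∨ r = 2) ∧ finrank ℚ F = r * 3 ^ n ∧
      Cardinal.toNat (rF N F) = r * Cardinal.toNat (rQ N) ∧
      (∃ L₀ L : ℂ → ℂ, Differentiable ℂ L₀ ∧
        (∀ s : ℂ, 3 / 2 < s.re → HasProd (eF (F := ℚ) (6 * N) N s) (L₀ s)) ∧
        Differentiable ℂ L ∧
        (∀ s : ℂ, 3 / 2 < s.re → HasProd (eF (F := F) (MM N d) N s) (L s)) ∧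
        analyticOrderAt L 1 = r * analyticOrderAt L₀ 1) ∧
      (Triv3 N → RankZero N d F ∧ Kl n N F) := by
  obtain ⟨hd1, hd2⟩ := mem_Ik.1 hd
  have hC : ∀ e, Cls (cf (N * fo e d)) := fun e => (cls_fo hN hd1).1
  have hNS : ∀ e : Fin n → ZMod 3, e ≠ 0 → NoSplit (cf (N * fo e d)) := fun e he =>
    (triv_iff (hC e)).1 ((rr_triv (hC e)).1 (hG e he))
  have hex : ∀ e : Fin n → ZMod 3, ∃ f, IsL (WD ((cf (N * fo e d) : ℕ) : ℤ)) f ∧
      (e ≠ 0 → f 1 ≠ 0) := by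
    intro e
    by_cases he : e = 0
    · obtain ⟨-, f, hf, -⟩ := fin_all (hC e)
      exact ⟨f, hf, fun h => absurd he h⟩
    · obtain ⟨-, f, hf, h1⟩ := conc (hC e) (hNS e he)
      exact ⟨f, hf, fun _ => h1⟩
  choose f hf hf1 using hex
  have h0 : cf (N * fo (0 : Fin n → ZMod 3) d) = N := by
    rw [fo_zero, mul_one]
    exact cf_self hN.1
  obtain ⟨r, hr, hdeg, hrk, L, hL1, hL2, hL3⟩ := field_gen hN hd hcube hgen hf
  refine ⟨r, hr, hdeg, ?_, ?_, ?_⟩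
  · rw [hrk, Finset.sum_eq_single 0]
    · rw [h0]
    · intro e _ he
      have h1 := (conc (hC e) (hNS e he)).1
      rw [rQ_zero h1, Cardinal.zero_toNat]
    · intro h
      exact absurd (Finset.mem_univ _) h
  · have hf0 : IsL (WD ((N : ℕ) : ℤ)) (f 0) := by
      have := hf 0
      rw [h0] at this
      exact this
    obtain ⟨L₀, g1, g2, g3⟩ := glo_ord (N := N) rd_Q hN.1.1 (fun j => j.elim0)
      (D := fun _ => N) (c := fun _ => 1) (fun e => by
        unfold tw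
        rw [Finset.univ_eq_empty, Finset.prod_empty]
        ring) (f := fun _ => f 0) (fun _ => hf0)
    have hMM : MM N (fun _ : Fin 0 => 1) = 6 * N := by
      unfold MM
      rw [Finset.univ_eq_empty, Finset.prod_empty, mul_one]
    rw [hMM] at g2
    refine ⟨L₀, L, g1, g2, hL1, hL2, ?_⟩
    rw [Fintype.sum_unique, Nat.cast_one, one_mul] at g3
    rw [hL3, g3, Finset.sum_eq_single 0]
    · intro e _ he
      exact ((hf e).1.analyticAt 1).analyticOrderAt_eq_zero.2 (hf1 e he)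
    · intro h
      exact absurd (Finset.mem_univ _) h
  · intro hT
    have hS : ∀ e : Fin n → ZMod 3, NoSplit (cf (N * fo e d)) := by
      intro e
      by_cases he : e = 0
      · subst he
        rw [h0]
        exact (triv_iff hN).1 hT
      · exact hNS e he
    have hDc : ∀ e, tw N d e = cf (N * fo e d) *
        (∏ p ∈ (N * fo e d).primeFactors, p ^ ((N * fo e d).factorization p / 3)) ^ 3 := fun e =>
      cf_mul (cls_fo (e := e) hN hd1).2
    have hRd : Rd r F d t := ⟨hcube, hgen, hdeg⟩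
    refine ⟨tf hRd hN.1.1 hd2.ne_zero hDc hC hS, fun m x hx => ?_⟩
    exact Q283.MS.sha_all hcube hgen hN.1.1 hd2.ne_zero hDc hC hS m x hx

end

end Q283.NR
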