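import Pool.Agent.Q283.NR.R8

/-! The field of the cube roots of all the divisors -/

set_option autoImplicit false
set_option linter.unusedSectionVars false
set_option linter.unusedVariables false

open scoped Classical
open Finset

namespace Q283.NR

open Module
open Q283.Q3N (fe fe_mul fe_cube fe_pow fe_one)
open Q283.Q3B (rr)
open Q283.ND (Dc cf cf_mul cf_ne cf_free fe_cf Dk mem_Dk dv fe_dv dv_dvd dv_inj Dk_eq Ax)
open Q283.NK (fo fo_ne fe_fo cf_congr)
open Q283.NJ (sp sp_ac sp_sqf PL)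
open Pool.Agent.Y703.CT (Cls Base WD EQ)
open Pool.Agent.Y692.CT (PD)
open Q283.MC (Ind)

theorem pow_add_nine {p : ℕ} (hp : p % 3 = 1) (a b : ZMod 3) :
    (p : ZMod 9) ^ (a + b).val = (p : ZMod 9) ^ a.val * (p : ZMod 9) ^ b.val := by
  have h3 : (p : ZMod 9) ^ 3 = 1 := by
    have key : ∀ x : ZMod 9, x.val % 3 = 1 → x ^ 3 = 1 := by decide
    apply key
    rw [ZMod.val_natCast]
    omega
  rw [← pow_add, ZMod.val_add, ← pow_eq_pow_mod _ h3]

section
variable {D : ℕ} (hD : Dc D)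

include hD in
theorem one_of (p : D.primeFactors) : (p : ℕ) % 3 = 1 :=
  hD.2 p (Nat.prime_of_mem_primeFactors p.2) (Nat.dvd_of_mem_primeFactors p.2)

include hD in
theorem dv_add (e e' : D.primeFactors → ZMod 3) :
    ((dv (e + e') : ℕ) : ZMod 9) = (dv e : ℕ) * (dv e' : ℕ) := by
  unfold dv
  push_cast
  rw [← prod_mul_distrib]
  exact prod_congr rfl fun p _ => pow_add_nine (one_of hD p) (e p) (e' p)

theorem dv_zero : dv (0 : D.primeFactors → ZMod 3) = 1 := by
  unfold dv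
  exact prod_eq_one fun p _ => by rw [Pi.zero_apply, ZMod.val_zero, pow_zero]

/-- the group of the divisors `1` modulo `9` -/
noncomputable def Wd : AddSubgroup (D.primeFactors → ZMod 3) where
  carrier := {e | ((dv e : ℕ) : ZMod 9) = 1}
  zero_mem' := by
    show ((dv (0 : D.primeFactors → ZMod 3) : ℕ) : ZMod 9) = 1
    rw [dv_zero, Nat.cast_one]
  add_mem' := by
    intro a b ha hb
    have ha' : ((dv a : ℕ) : ZMod 9) = 1 := ha
    have hb' : ((dv b : ℕ) : ZMod 9) = 1 := hb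
    show ((dv (a + b) : ℕ) : ZMod 9) = 1
    rw [dv_add hD, ha', hb', mul_one]
  neg_mem' := by
    intro a ha
    have ha' : ((dv a : ℕ) : ZMod 9) = 1 := ha
    show ((dv (-a) : ℕ) : ZMod 9) = 1
    have h1 := dv_add hD a (-a)
    rw [add_neg_cancel, dv_zero, Nat.cast_one, ha', one_mul] at h1
    exact h1.symm

theorem mem_Wd {e : D.primeFactors → ZMod 3} : e ∈ Wd hD ↔ dv e % 9 = 1 := by
  have h : e ∈ Wd hD ↔ ((dv e : ℕ) : ZMod 9) = ((1 : ℕ) : ZMod 9) := by
    rw [Nat.cast_one]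
    exact Iff.rfl
  rw [h, ZMod.natCast_eq_natCast_iff]
  exact Iff.rfl

include hD in
/-- **A basis of the group of the divisors `1` modulo `9`.** -/
theorem basis_ex : ∃ (k : ℕ) (d : Fin k → ℕ), (∀ i, d i ∈ Dk 1 D) ∧ Ind d ∧ (Dk 1 D).card = 3 ^ k ∧
    (∀ N : ℕ, N ≠ 0 → ∀ g : ℕ → ℕ,
      ∑ e : Fin k → ZMod 3, g (cf (N * fo e d)) = ∑ x ∈ Dk 1 D, g (cf (N * x))) ∧
    ∀ x ∈ Dk 1 D, ∃ (e : Fin k → ZMod 3) (a b : ℕ), a ≠ 0 ∧ b ≠ 0 ∧ x * a ^ 3 = fo e d * b ^ 3 := by
  have hS : ∀ p ∈ D.primeFactors, p.Prime := fun p hp => Nat.prime_of_mem_primeFactors hp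
  obtain ⟨V, hV⟩ : ∃ V : Submodule (ZMod 3) (D.primeFactors → ZMod 3),
      V = AddSubgroup.toZModSubmodule 3 (Wd hD) := ⟨_, rfl⟩
  have hmem : ∀ e, e ∈ V ↔ dv e % 9 = 1 := by
    intro e
    rw [hV, ← mem_Wd hD]
    exact Iff.rfl
  obtain ⟨k, hk⟩ : ∃ k, k = finrank (ZMod 3) V := ⟨_, rfl⟩
  obtain b : Basis (Fin k) (ZMod 3) V := hk ▸ Module.finBasis (ZMod 3) V
  have hd1 : ∀ i, dv (b i : D.primeFactors → ZMod 3) ∈ Dk 1 D := fun i =>
    (mem_Dk hD.1).2 ⟨dv_dvd hD.1 _, (hmem _).1 (b i).2⟩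
  have hd0 : ∀ i, dv (b i : D.primeFactors → ZMod 3) ≠ 0 := fun i h => by
    have := (mem_Dk hD.1).1 (hd1 i)
    omega
  have hdv0 : ∀ e : D.primeFactors → ZMod 3, dv e ≠ 0 := fun e h =>
    pow_ne_zero 2 hD.1.ne_zero (zero_dvd_iff.1 (h ▸ dv_dvd hD.1 e))
  -- the exponents of the products
  have hfe : ∀ (e : Fin k → ZMod 3) (p : ℕ),
      fe (fo e fun i => dv (b i : D.primeFactors → ZMod 3)) p =
        fe (dv ((b.equivFun.symm e : V) : D.primeFactors → ZMod 3)) p := by
    intro e p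
    rw [fe_fo hd0, fe_dv hS, Basis.equivFun_symm_apply]
    by_cases hp : p ∈ D.primeFactors
    · rw [dif_pos hp, Submodule.coe_sum, Finset.sum_apply]
      refine sum_congr rfl fun i _ => ?_
      rw [fe_dv hS, dif_pos hp]
      rfl
    · rw [dif_neg hp]
      refine sum_eq_zero fun i _ => ?_
      rw [fe_dv hS, dif_neg hp, mul_zero]
  refine ⟨k, fun i => dv (b i : D.primeFactors → ZMod 3), hd1, ?_, ?_, ?_, ?_⟩
  · intro e he c hc
    apply he
    have h1 : (b.equivFun.symm e : V) = 0 := by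
      apply Subtype.ext
      funext p
      have h2 := hfe e p
      have h3 : fo e (fun i => dv (b i : D.primeFactors → ZMod 3)) = c ^ 3 := hc
      rw [h3, fe_cube, fe_dv hS, dif_pos p.2] at h2
      exact h2.symm
    exact (LinearEquiv.map_eq_zero_iff _).1 h1
  · have h1 : (Dk 1 D).card = (Ax 1 D.primeFactors).card := by
      rw [Dk_eq hD.1, card_image_of_injOn fun _ _ _ _ h' => dv_inj h']
    have h2 : (Ax 1 D.primeFactors).card = Fintype.card V := by
      rw [← Fintype.card_coe]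
      refine Fintype.card_congr (Equiv.subtypeEquivRight fun e => ?_)
      rw [hmem]
      unfold Ax
      rw [mem_filter]
      exact ⟨fun h => h.2, fun h => ⟨mem_univ _, h⟩⟩
    rw [h1, h2, ← Fintype.card_congr b.equivFun.symm.toEquiv, Fintype.card_fun, ZMod.card,
      Fintype.card_fin]
  · intro N hN g
    have h1 : ∀ e : Fin k → ZMod 3,
        cf (N * fo e fun i => dv (b i : D.primeFactors → ZMod 3)) =
          cf (N * dv ((b.equivFun.symm e : V) : D.primeFactors → ZMod 3)) := by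
      intro e
      refine cf_congr (mul_ne_zero hN (fo_ne hd0)) (mul_ne_zero hN (hdv0 _)) fun p => ?_
      rw [fe_mul hN (fo_ne hd0), fe_mul hN (hdv0 _), hfe]
    have h2 : ∑ e : Fin k → ZMod 3, g (cf (N * fo e fun i => dv (b i : D.primeFactors → ZMod 3))) =
        ∑ v : V, g (cf (N * dv (v : D.primeFactors → ZMod 3))) := by
      refine Fintype.sum_equiv b.equivFun.symm.toEquiv _ _ fun e => ?_
      rw [h1]
      rfl
    rw [h2, Dk_eq hD.1, sum_image fun _ _ _ _ h' => dv_inj h']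
    have h3 : ∑ v : V, g (cf (N * dv (v : D.primeFactors → ZMod 3))) =
        ∑ v : {e : D.primeFactors → ZMod 3 // e ∈ Ax 1 D.primeFactors},
          g (cf (N * dv (v : D.primeFactors → ZMod 3))) := by
      refine Fintype.sum_equiv (Equiv.subtypeEquivRight fun e => ?_) _ _ fun v => rfl
      rw [hmem]
      unfold Ax
      rw [mem_filter]
      exact ⟨fun h => ⟨mem_univ _, h⟩, fun h => h.2⟩
    rw [h3]
    exact sum_coe_sort (Ax 1 D.primeFactors) fun v => g (cf (N * dv v))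
  · intro x hx
    rw [Dk_eq hD.1, mem_image] at hx
    obtain ⟨v, hv, rfl⟩ := hx
    unfold Ax at hv
    rw [mem_filter] at hv
    have hvV : v ∈ V := (hmem v).2 hv.2
    obtain ⟨e, he⟩ : ∃ e : Fin k → ZMod 3, b.equivFun.symm e = ⟨v, hvV⟩ :=
      b.equivFun.symm.surjective _
    have h1 : cf (dv v) = cf (fo e fun i => dv (b i : D.primeFactors → ZMod 3)) := by
      refine cf_congr (hdv0 _) (fo_ne hd0) fun p => ?_
      rw [hfe, he]
    have h2 := cf_mul (hdv0 v)
    have h3 := cf_mul (fo_ne (b := e) hd0)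
    obtain ⟨u, hu⟩ : ∃ u : ℕ, dv v = cf (dv v) * u ^ 3 := ⟨_, h2⟩
    obtain ⟨w, hw⟩ : ∃ w : ℕ, (fo e fun i => dv (b i : D.primeFactors → ZMod 3)) =
      cf (fo e fun i => dv (b i : D.primeFactors → ZMod 3)) * w ^ 3 := ⟨_, h3⟩
    refine ⟨e, w, u, ?_, ?_, ?_⟩
    · rintro rfl
      rw [zero_pow (by norm_num), mul_zero] at hw
      exact fo_ne hd0 hw
    · rintro rfl
      rw [zero_pow (by norm_num), mul_zero] at hu
      exact hdv0 v hu
    · rw [hu, hw, ← h1]
      ring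

end

/-- **The rank over the field of the cube roots of all the divisors.** -/
theorem kummer {N D : ℕ} (hN : Cls N) {F : Type} [Field F] [NumberField F] {t : ℕ → F}
    (ht : ∀ x ∈ Dk 1 (sp D), t x ^ 3 = (x : F))
    (hgen : IntermediateField.adjoin ℚ ({x : F | x ^ 3 = 1} ∪ t '' {x | x ∈ Dk 1 (sp D)}) = ⊤) :
    ∃ r : ℕ, (r = 1 ∨ r = 2) ∧ finrank ℚ F = r * (Dk 1 (sp D)).card ∧
      Cardinal.toNat (rF N F) =
        r * ∑ x ∈ Dk 1 (sp D), Cardinal.toNat (rQ (cf (N * x))) := by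
  obtain ⟨k, d, h1, h2, h3, h4, h5⟩ := basis_ex (sp_ac D)
  have hcube : ∀ i, t (d i) ^ 3 = (d i : F) := fun i => ht _ (h1 i)
  have hle : IntermediateField.adjoin ℚ ({x : F | x ^ 3 = 1} ∪ Set.range fun i => t (d i)) = ⊤ := by
    rw [eq_top_iff, ← hgen, IntermediateField.adjoin_le_iff]
    rintro z (hz | ⟨x, hx, rfl⟩)
    · exact IntermediateField.subset_adjoin ℚ _ (Or.inl hz)
    · obtain ⟨e, a, b, ha, hb, hab⟩ := h5 x hx
      obtain ⟨K, hK⟩ : ∃ K : IntermediateField ℚ F,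
          K = IntermediateField.adjoin ℚ ({x : F | x ^ 3 = 1} ∪ Set.range fun i => t (d i)) :=
        ⟨_, rfl⟩
      rw [← hK]
      have hti : ∀ i, t (d i) ∈ K := fun i => by
        rw [hK]
        exact IntermediateField.subset_adjoin ℚ _ (Or.inr ⟨i, rfl⟩)
      have ha' : (a : F) ≠ 0 := by exact_mod_cast ha
      have hb' : (b : F) ≠ 0 := by exact_mod_cast hb
      have hx0 : (x : F) ≠ 0 := by
        have := (mem_Dk (sp_sqf D)).1 hx
        have h0 : x ≠ 0 := by omega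
        exact_mod_cast h0
      have hxa : t x * a ≠ 0 := by
        refine mul_ne_zero (fun h => ?_) ha'
        have := ht x hx
        rw [h, zero_pow (by norm_num)] at this
        exact hx0 this.symm
      obtain ⟨y, hy⟩ : ∃ y : F, y = (∏ i, t (d i) ^ (e i).val) * b := ⟨_, rfl⟩
      have hyK : y ∈ K := by
        rw [hy]
        exact K.mul_mem (_root_.prod_mem (fun i _ => _root_.pow_mem (hti i) _)) (natCast_mem K b)
      have hy3 : y ^ 3 = (t x * a) ^ 3 := by
        rw [hy, mul_pow, mul_pow, ht x hx, ← prod_pow]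
        have h6 : ∏ i, (t (d i) ^ (e i).val) ^ 3 = ((fo e d : ℕ) : F) := by
          unfold fo
          push_cast
          refine prod_congr rfl fun i _ => ?_
          rw [← pow_mul, mul_comm, pow_mul, hcube]
        rw [h6]
        have h7 : ((x * a ^ 3 : ℕ) : F) = ((fo e d * b ^ 3 : ℕ) : F) := by rw [hab]
        push_cast at h7
        exact h7.symm
      have hy0 : y ≠ 0 := by
        intro h
        rw [h, zero_pow (by norm_num)] at hy3
        exact pow_ne_zero 3 hxa hy3.symm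
      have hu : (t x * a / y) ∈ K := by
        rw [hK]
        refine IntermediateField.subset_adjoin ℚ _ (Or.inl ?_)
        show (t x * a / y) ^ 3 = 1
        rw [div_pow, hy3, div_self (pow_ne_zero 3 hxa)]
      have h8 : t x = (t x * a / y) * y / a := by
        rw [div_mul_cancel₀ _ hy0, mul_div_assoc, div_self ha', mul_one]
      rw [h8]
      exact K.div_mem (K.mul_mem hu hyK) (natCast_mem K a)
  obtain ⟨r, hr, hdeg, hrk⟩ := field_rank (t := fun i => t (d i)) hcube hle h2 hN.1.1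
  refine ⟨r, hr, by rw [hdeg, h3], ?_⟩
  rw [hrk, ← h4 N hN.1.1 fun n => Cardinal.toNat (rQ n)]
  congr 1
  refine sum_congr rfl fun e _ => ?_
  have hn := (cls_fo (e := e) hN h1).2
  have h6 : N * ∏ j, d j ^ (e j).val = cf (N * fo e d) *
      (∏ p ∈ (N * fo e d).primeFactors, p ^ ((N * fo e d).factorization p / 3)) ^ 3 := cf_mul hn
  rw [h6, rQ_scale (cf_ne hn)]
  intro h0
  have h5 := cf_mul hn
  rw [h0, zero_pow (by norm_num), mul_zero] at h5
  exact hn h5

/-- the rank and the number `rr` -/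
theorem rQ_le {n : ℕ} (hC : Cls n) : Cardinal.toNat (rQ n) ≤ 2 * rr n := by
  have : IsCyclotomicExtension {3} ℚ (CyclotomicField 3 ℚ) :=
    CyclotomicField.isCyclotomicExtension 3 ℚ
  obtain ⟨⟨j, -⟩, -⟩ := Pool.Agent.Y455.CTK.jex (CyclotomicField 3 ℚ)
  have h1 := (Q283.Q3B.sel_N (CyclotomicField 3 ℚ) j hC).2.1
  refine le_trans (le_of_eq ?_) h1
  have h2 : Pool.Agent.Y703.CT.EQ (Pool.Agent.Y703.CT.WD ((n : ℕ) : ℤ)) =
      Pool.Agent.Y696.CTK.ED ((n : ℕ) : ℚ) := by
    ext <;> simp [Pool.Agent.Y703.CT.WD, Pool.Agent.Y696.CTK.ED]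
  unfold rQ rF rk
  have key : ∀ (W W' : WeierstrassCurve ℚ) (i i' : DecidableEq ℚ), W = W' →
      Cardinal.toNat (letI := i; Module.rank ℤ W.toAffine.Point) =
      (letI := i'; Module.finrank ℤ W'.toAffine.Point) := by
    intro W W' i i' h
    subst h
    have : i = i' := Subsingleton.elim _ _
    subst this
    rfl
  have h3 : (EQ (WD ((n : ℕ) : ℤ))).baseChange ℚ = EQ (WD ((n : ℕ) : ℤ)) := by
    unfold WeierstrassCurve.baseChange
    exact WeierstrassCurve.map_id _
  exact key _ _ _ _ (h3.trans h2)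

end Q283.NR
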